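import Pool.Agent.H24.HS.Fib
set_option autoImplicit false

/-! Asymptotic form of the bounds for sets of integers. -/

namespace H24.HS

open Finset
open scoped Pointwise

theorem log_count {N : ℕ} (hN : 1 ≤ N) {x : ℝ} (hx : x = Real.log N) (hx2 : 2 ≤ x) :
    ((Nat.log 2 N : ℕ) : ℝ) + 1 ≤ 2 * x := by
  have h1 : 2 ^ Nat.log 2 N ≤ N := Nat.pow_log_le_self 2 (by omega)
  have h2 : ((2 : ℝ) ^ Nat.log 2 N) ≤ N := by exact_mod_cast h1
  have h3 := Real.log_le_log (by positivity) h2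
  rw [Real.log_pow, ← hx] at h3
  have h4 := Real.log_two_gt_d9
  have h5 : (0 : ℝ) ≤ (Nat.log 2 N : ℕ) := Nat.cast_nonneg _
  nlinarith

theorem pow_le_exp4 {z : ℝ} (hz : 0 ≤ z) : z ^ 4 / 24 ≤ Real.exp z := by
  have := Real.pow_div_factorial_le_exp z hz 4
  norm_num [Nat.factorial] at this
  exact this

theorem pow_le_exp8 {z : ℝ} (hz : 0 ≤ z) : z ^ 8 / 40320 ≤ Real.exp z := by
  have := Real.pow_div_factorial_le_exp z hz 8
  norm_num [Nat.factorial] at this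
  exact this

theorem pow_le_exp2 {z : ℝ} (hz : 0 ≤ z) : z ^ 2 / 2 ≤ Real.exp z := by
  have := Real.pow_div_factorial_le_exp z hz 2
  norm_num [Nat.factorial] at this
  exact this

/-- the image is large -/
theorem image_large {N : ℕ} (hN : 1 ≤ N) {x ε c : ℝ} (hx : x = Real.log N) (hε : 0 < ε)
    (hε1 : ε ≤ 1) (hc0 : 0 < c) (hc1 : c ≤ 1) (hx2 : 2 ≤ x) (hxa : 16 / ε ^ 2 ≤ x)
    (hxb : 64 / ε ^ 2 ≤ x) {a y : ℝ} (ha : N * Real.exp (-(c * √x)) < a)
    (hy : a ≤ (((Nat.log 2 N : ℕ) : ℝ) + 1) * (N : ℝ) ^ (1 - ε) * y) (hy0 : 0 ≤ y) :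
    Real.exp (ε / 2 * x) ≤ y := by
  have hNpos : (0 : ℝ) < N := by exact_mod_cast hN
  have hx0 : 0 < x := by linarith
  have hJ := log_count hN hx hx2
  have h1 : (N : ℝ) ^ (1 - ε) = Real.exp ((1 - ε) * x) := by
    rw [Real.rpow_def_of_pos hNpos, ← hx]; congr 1; ring
  have h2 : (N : ℝ) = Real.exp x := by rw [hx, Real.exp_log hNpos]
  have hsq : c * √x ≤ ε / 4 * x := by
    have h3 : √x * √x = x := Real.mul_self_sqrt hx0.le
    have h4 : 4 / ε ≤ √x := by
      apply Real.le_sqrt_of_sq_le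
      rw [div_pow]; norm_num; exact hxa
    have h5 : 4 ≤ √x * ε := by rwa [div_le_iff₀ hε] at h4
    have h6 : 0 ≤ √x := Real.sqrt_nonneg x
    nlinarith
  have h3 : 2 * x ≤ Real.exp (ε / 4 * x) := by
    refine le_trans ?_ (pow_le_exp2 (by positivity))
    have h4 : 64 ≤ x * ε ^ 2 := by rwa [div_le_iff₀ (by positivity)] at hxb
    nlinarith
  have h4 : N * Real.exp (-(c * √x)) < Real.exp (ε / 4 * x) * Real.exp ((1 - ε) * x) * y := by
    calc N * Real.exp (-(c * √x)) < a := ha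
      _ ≤ (((Nat.log 2 N : ℕ) : ℝ) + 1) * (N : ℝ) ^ (1 - ε) * y := hy
      _ ≤ Real.exp (ε / 4 * x) * Real.exp ((1 - ε) * x) * y := by
          rw [h1]
          apply mul_le_mul_of_nonneg_right _ hy0
          apply mul_le_mul_of_nonneg_right _ (Real.exp_pos _).le
          linarith
  rw [← Real.exp_add] at h4
  have h5 : Real.exp (-(ε / 4 * x + (1 - ε) * x)) * (N * Real.exp (-(c * √x))) < y := by
    have h6 := mul_lt_mul_of_pos_left h4 (Real.exp_pos (-(ε / 4 * x + (1 - ε) * x)))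
    rw [← mul_assoc (Real.exp (-(ε / 4 * x + (1 - ε) * x)))
      (Real.exp (ε / 4 * x + (1 - ε) * x)) y, ← Real.exp_add, neg_add_cancel, Real.exp_zero,
      one_mul] at h6
    exact h6
  refine le_trans ?_ h5.le
  rw [h2, ← Real.exp_add, ← Real.exp_add]
  apply Real.exp_le_exp.2
  nlinarith

/-- **Hypersurfaces.** -/
theorem asym_hyp (k : ℕ) {ε : ℝ} (hε : 0 < ε) (hε1 : ε ≤ 1) :
    ∃ c : ℝ, 0 < c ∧ ∃ N₀ : ℕ, ∀ N : ℕ, N₀ ≤ N → ∀ (V : Type) [AddCommGroup V] [Module ℝ V]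
      (A : Finset ℤ) (ψ : ℤ → V) (T : ℕ) (f : Fin T → V → ℝ),
      A ⊆ Finset.Icc 1 (N : ℤ) → IsAddFreimanHom 2 (A : Set ℤ) Set.univ ψ →
      (∀ v, (({a : ℤ | a ∈ A ∧ ψ a = v}.ncard : ℕ) : ℝ) ≤ (N : ℝ) ^ (1 - ε)) →
      (T : ℝ) ≤ Real.exp (c * √(Real.log N)) → (∀ i, Hyp k (f i)) →
      (∀ a ∈ A, ∃ i, f i (ψ a) = 0) →
      (A.card : ℝ) ≤ N * Real.exp (-(c * √(Real.log N))) := by
  obtain ⟨c₁, hc₁⟩ : ∃ c₁ : ℝ, c₁ = 1 / 2500 * √(ε / 2 / 2 ^ k) := ⟨_, rfl⟩
  have hc₁0 : 0 < c₁ := by rw [hc₁]; positivity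
  have hc₁1 : c₁ ≤ 1 := by
    have h1 : √(ε / 2 / 2 ^ k) ≤ 1 := by
      rw [Real.sqrt_le_left (by norm_num)]
      have h2 : (1 : ℝ) ≤ 2 ^ k := one_le_pow₀ (by norm_num)
      rw [div_div, div_le_iff₀ (by positivity)]
      nlinarith
    rw [hc₁]
    have h3 := Real.sqrt_nonneg (ε / 2 / 2 ^ k)
    linarith
  obtain ⟨c, hc⟩ : ∃ c : ℝ, c = c₁ / 4 := ⟨_, rfl⟩
  have hc0 : 0 < c := by rw [hc]; positivity
  have hc1 : c ≤ 1 := by rw [hc]; linarith
  obtain ⟨X₀, hX₀⟩ : ∃ X₀ : ℝ, X₀ = max (max 2 (64 / ε ^ 2)) (96 / c ^ 4) := ⟨_, rfl⟩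
  refine ⟨c, hc0, max 1 ⌈Real.exp X₀⌉₊, ?_⟩
  intro N hN V _ _ A ψ T f hA hψ hF hT hf hz
  classical
  have hN1 : 1 ≤ N := (le_max_left _ _).trans hN
  have hNpos : (0 : ℝ) < N := by exact_mod_cast hN1
  obtain ⟨x, hx⟩ : ∃ x : ℝ, x = Real.log N := ⟨_, rfl⟩
  have hxX : X₀ ≤ x := by
    rw [hx, Real.le_log_iff_exp_le hNpos]
    exact (Nat.le_ceil _).trans (by exact_mod_cast (le_max_right _ _).trans hN)
  have hx2 : 2 ≤ x := by
    refine le_trans ?_ hxX
    rw [hX₀]; exact (le_max_left _ _).trans (le_max_left _ _)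
  have hxb : 64 / ε ^ 2 ≤ x := by
    refine le_trans ?_ hxX
    rw [hX₀]; exact (le_max_right _ _).trans (le_max_left _ _)
  have hxa : 16 / ε ^ 2 ≤ x := by
    refine le_trans ?_ hxb
    gcongr
    norm_num
  have hxc : 96 / c ^ 4 ≤ x := by
    refine le_trans ?_ hxX
    rw [hX₀]; exact le_max_right _ _
  rw [← hx] at hT ⊢
  rcases le_or_gt (A.card : ℝ) (N * Real.exp (-(c * √x))) with hcase | hcase
  · exact hcase
  have hne : A.Nonempty := by
    rw [← Finset.card_pos]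
    have : (0 : ℝ) < A.card := lt_trans (by positivity) hcase
    exact_mod_cast this
  have hF' : ∀ v, ((A.filter fun a => ψ a = v).card : ℝ) ≤ (N : ℝ) ^ (1 - ε) := by
    intro v
    have h1 : {a : ℤ | a ∈ A ∧ ψ a = v} = ((A.filter fun a => ψ a = v : Finset ℤ) : Set ℤ) := by
      ext a
      simp
    have h2 := hF v
    rw [h1, Set.ncard_coe_finset] at h2
    exact h2
  obtain ⟨Y, hYA, hY1, hY2⟩ := fibre_main hA hne ψ hψ hF'
  have hYbig := image_large hN1 hx hε hε1 hc0 hc1 hx2 hxa hxb hcase hY1 (Nat.cast_nonneg _)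
  have hE := energy_hyp Y hf (by
    intro y hy
    obtain ⟨a, ha, rfl⟩ := Finset.mem_image.1 (hYA hy)
    exact hz a ha)
  have hYpos : (0 : ℝ) < Y.card := lt_of_lt_of_le (Real.exp_pos _) hYbig
  have hlogY : ε / 2 * x ≤ Real.log Y.card := by
    rw [Real.le_log_iff_exp_le hYpos]; exact hYbig
  have hexp : c₁ * √x ≤ 1 / 2500 * √(Real.log Y.card / 2 ^ k) := by
    rw [hc₁, mul_assoc, ← Real.sqrt_mul (by positivity)]
    apply mul_le_mul_of_nonneg_left _ (by norm_num)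
    apply Real.sqrt_le_sqrt
    have h1 : ε / 2 / 2 ^ k * x = (ε / 2 * x) / 2 ^ k := by ring
    rw [h1]
    exact div_le_div_of_nonneg_right hlogY (by positivity)
  have h3 := hY2 T (1 / 2500 * √(Real.log Y.card / 2 ^ k)) hE
  have hJ := log_count hN1 hx hx2
  have hx0 : 0 < x := by linarith
  have h64 : 64 * x ≤ Real.exp (2 * c * √x) := by
    refine le_trans ?_ (pow_le_exp4 (by positivity))
    have h4 : (2 * c * √x) ^ 4 = 16 * c ^ 4 * x ^ 2 := by
      have h5 : √x ^ 4 = x ^ 2 := by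
        have h6 : √x ^ 2 = x := Real.sq_sqrt hx0.le
        calc √x ^ 4 = (√x ^ 2) ^ 2 := by ring
          _ = x ^ 2 := by rw [h6]
      rw [mul_pow, mul_pow, h5]; ring
    rw [h4]
    have h5 : 96 ≤ x * c ^ 4 := by rwa [div_le_iff₀ (by positivity)] at hxc
    have h6 : 96 * x ≤ (x * c ^ 4) * x := mul_le_mul_of_nonneg_right h5 hx0.le
    nlinarith
  calc (A.card : ℝ) ≤ 32 * (((Nat.log 2 N : ℕ) : ℝ) + 1) * T * N *
        Real.exp (-(1 / 2500 * √(Real.log Y.card / 2 ^ k))) := h3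
    _ ≤ 32 * (2 * x) * Real.exp (c * √x) * N * Real.exp (-(c₁ * √x)) := by
        gcongr
    _ = (64 * x) * (N * (Real.exp (c * √x) * Real.exp (-(c₁ * √x)))) := by ring
    _ ≤ Real.exp (2 * c * √x) * (N * (Real.exp (c * √x) * Real.exp (-(c₁ * √x)))) := by
        apply mul_le_mul_of_nonneg_right h64
        positivity
    _ = N * Real.exp (-(c * √x)) := by
        rw [← Real.exp_add, mul_left_comm, ← Real.exp_add]
        congr 2
        have : c₁ = 4 * c := by rw [hc]; ring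
        rw [this]
        ring

/-- **Few collinear points.** -/
theorem asym_few {ε : ℝ} (hε : 0 < ε) (hε1 : ε ≤ 1) :
    ∃ c : ℝ, 0 < c ∧ ∃ N₀ : ℕ, ∀ N : ℕ, N₀ ≤ N → ∀ (V : Type) [AddCommGroup V] [Module ℝ V]
      (A : Finset ℤ) (ψ : ℤ → V) (t : ℕ),
      A ⊆ Finset.Icc 1 (N : ℤ) → IsAddFreimanHom 2 (A : Set ℤ) Set.univ ψ →
      (∀ v, (({a : ℤ | a ∈ A ∧ ψ a = v}.ncard : ℕ) : ℝ) ≤ (N : ℝ) ^ (1 - ε)) →
      (t : ℝ) ≤ Real.exp (√(Real.log N)) →
      (∀ S : Finset V, (S : Set V) ⊆ ψ '' A → (∃ a v : V, ∀ y ∈ S, ∃ r : ℝ, y = a + r • v) →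
        S.card ≤ t) →
      (A.card : ℝ) ≤ N * Real.exp (-(c * √(Real.log N / Real.log (Real.log N)))) := by
  obtain ⟨c₁, hc₁⟩ : ∃ c₁ : ℝ, c₁ = 1 / (2 * 10 ^ 12) * (ε / 6) := ⟨_, rfl⟩
  have hc₁0 : 0 < c₁ := by rw [hc₁]; positivity
  have hc₁1 : c₁ ≤ 1 := by
    rw [hc₁]
    norm_num
    linarith
  obtain ⟨c, hc⟩ : ∃ c : ℝ, c = c₁ / 2 := ⟨_, rfl⟩
  have hc0 : 0 < c := by rw [hc]; positivity
  have hc1 : c ≤ 1 := by rw [hc]; linarith
  obtain ⟨X₀, hX₀⟩ : ∃ X₀ : ℝ, X₀ = max (max 3 (64 / ε ^ 2)) (64 * 16 * 40320 / c ^ 8) := ⟨_, rfl⟩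
  refine ⟨c, hc0, max 1 ⌈Real.exp X₀⌉₊, ?_⟩
  intro N hN V _ _ A ψ t hA hψ hF ht hcol
  classical
  have hN1 : 1 ≤ N := (le_max_left _ _).trans hN
  have hNpos : (0 : ℝ) < N := by exact_mod_cast hN1
  obtain ⟨x, hx⟩ : ∃ x : ℝ, x = Real.log N := ⟨_, rfl⟩
  have hxX : X₀ ≤ x := by
    rw [hx, Real.le_log_iff_exp_le hNpos]
    exact (Nat.le_ceil _).trans (by exact_mod_cast (le_max_right _ _).trans hN)
  have hx3 : 3 ≤ x := by
    refine le_trans ?_ hxX
    rw [hX₀]; exact (le_max_left _ _).trans (le_max_left _ _)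
  have hxb : 64 / ε ^ 2 ≤ x := by
    refine le_trans ?_ hxX
    rw [hX₀]; exact (le_max_right _ _).trans (le_max_left _ _)
  have hxa : 16 / ε ^ 2 ≤ x := by
    refine le_trans ?_ hxb
    gcongr
    norm_num
  have hxc : 64 * 16 * 40320 / c ^ 8 ≤ x := by
    refine le_trans ?_ hxX
    rw [hX₀]; exact le_max_right _ _
  rw [← hx] at ht ⊢
  have hx0 : 0 < x := by linarith
  -- `log x ≥ 1`
  have hlx1 : 1 ≤ Real.log x := by
    rw [Real.le_log_iff_exp_le hx0]
    have := Real.exp_one_lt_d9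
    linarith
  obtain ⟨s, hs⟩ : ∃ s : ℝ, s = √(x / Real.log x) := ⟨_, rfl⟩
  have hs0 : 0 ≤ s := by rw [hs]; exact Real.sqrt_nonneg _
  have hsx : s ≤ √x := by
    rw [hs]
    exact Real.sqrt_le_sqrt (div_le_self hx0.le hlx1)
  rw [← hs]
  rcases le_or_gt (A.card : ℝ) (N * Real.exp (-(c * s))) with hcase | hcase
  · exact hcase
  have hcase' : N * Real.exp (-(c * √x)) < A.card := by
    refine lt_of_le_of_lt ?_ hcase
    apply mul_le_mul_of_nonneg_left _ hNpos.le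
    apply Real.exp_le_exp.2
    nlinarith
  have hne : A.Nonempty := by
    rw [← Finset.card_pos]
    have : (0 : ℝ) < A.card := lt_trans (by positivity) hcase
    exact_mod_cast this
  have hF' : ∀ v, ((A.filter fun a => ψ a = v).card : ℝ) ≤ (N : ℝ) ^ (1 - ε) := by
    intro v
    have h1 : {a : ℤ | a ∈ A ∧ ψ a = v} = ((A.filter fun a => ψ a = v : Finset ℤ) : Set ℤ) := by
      ext a
      simp
    have h2 := hF v
    rw [h1, Set.ncard_coe_finset] at h2
    exact h2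
  obtain ⟨Y, hYA, hY1, hY2⟩ := fibre_main hA hne ψ hψ hF'
  have hYbig := image_large hN1 hx hε hε1 hc0 hc1 (by linarith) hxa hxb hcase' hY1
    (Nat.cast_nonneg _)
  have hcolY : FewCol (max t 2) Y := by
    intro S hS a v hv
    refine le_trans (hcol S ?_ ⟨a, v, hv⟩) (le_max_left _ _)
    intro y hy
    obtain ⟨b, hb, hby⟩ := Finset.mem_image.1 (hYA (hS hy))
    exact ⟨b, hb, hby⟩
  have hE := energy_few Y (le_max_right t 2) hcolY
  have hYpos : (0 : ℝ) < Y.card := lt_of_lt_of_le (Real.exp_pos _) hYbig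
  have hlogY : ε / 2 * x ≤ Real.log Y.card := by
    rw [Real.le_log_iff_exp_le hYpos]; exact hYbig
  have hYN : (Y.card : ℝ) ≤ N := by
    have h1 : Y.card ≤ N :=
      ((Finset.card_le_card hYA).trans Finset.card_image_le).trans (card_le_N hA)
    exact_mod_cast h1
  have hlogY' : Real.log Y.card ≤ x := by
    rw [hx]; exact Real.log_le_log hYpos hYN
  obtain ⟨L, hL⟩ : ∃ L : ℝ, L = Real.log Y.card := ⟨_, rfl⟩
  rw [← hL] at hlogY hlogY' hE
  have hL0 : 0 < L := lt_of_lt_of_le (by positivity) hlogY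
  have hE1 : ((Y.addEnergy Y : ℕ) : ℝ) ≤ 2 * (1 : ℝ) * Y.card ^ 3 *
      Real.exp (-(1 / (2 * 10 ^ 12) * phi (max t 2) L)) := by
    rw [mul_one]; exact hE
  have h3 := hY2 1 _ hE1
  -- lower bound for `phi`
  have hphi : ε / 6 * s ≤ phi (max t 2) L := by
    unfold phi
    apply le_min
    · have h4 : 1 + Real.log (1 + L) ≤ 3 * Real.log x := by
        have h5 : Real.log (1 + L) ≤ Real.log (x ^ 2) :=
          Real.log_le_log (by linarith) (by nlinarith)
        rw [Real.log_pow] at h5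
        push_cast at h5
        linarith
      have h40 : 0 < 1 + Real.log (1 + L) := by
        have := Real.log_nonneg (show (1 : ℝ) ≤ 1 + L by linarith)
        linarith
      have h5 : (ε / 6) ^ 2 * (x / Real.log x) ≤ L / (1 + Real.log (1 + L)) := by
        rw [le_div_iff₀ h40]
        calc (ε / 6) ^ 2 * (x / Real.log x) * (1 + Real.log (1 + L)) ≤
              (ε / 6) ^ 2 * (x / Real.log x) * (3 * Real.log x) := by gcongr
          _ = (ε / 6) ^ 2 * 3 * x := by field_simp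
          _ ≤ ε / 2 * x := by
              apply mul_le_mul_of_nonneg_right _ hx0.le
              nlinarith
          _ ≤ L := hlogY
      rw [hs]
      apply Real.le_sqrt_of_sq_le
      rw [mul_pow, Real.sq_sqrt (by positivity)]
      exact h5
    · have hlogt : Real.log ((max t 2 : ℕ) : ℝ) ≤ √x := by
        rw [Real.log_le_iff_le_exp (by
          have : (2 : ℝ) ≤ ((max t 2 : ℕ) : ℝ) := by exact_mod_cast le_max_right t 2
          linarith)]
        push_cast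
        apply max_le ht
        have h5 : 1 ≤ √x := Real.le_sqrt_of_sq_le (by linarith)
        have h6 := Real.add_one_le_exp (√x)
        linarith
      have hlogt0 : 0 < Real.log ((max t 2 : ℕ) : ℝ) := by
        apply Real.log_pos
        have : (2 : ℝ) ≤ ((max t 2 : ℕ) : ℝ) := by exact_mod_cast le_max_right t 2
        linarith
      rw [le_div_iff₀ hlogt0]
      have h7 : √x * √x = x := Real.mul_self_sqrt hx0.le
      have h8 : s * Real.log ((max t 2 : ℕ) : ℝ) ≤ √x * √x :=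
        mul_le_mul hsx hlogt hlogt0.le (Real.sqrt_nonneg _)
      calc ε / 6 * s * Real.log ((max t 2 : ℕ) : ℝ) =
            ε / 6 * (s * Real.log ((max t 2 : ℕ) : ℝ)) := by ring
        _ ≤ ε / 6 * (√x * √x) := mul_le_mul_of_nonneg_left h8 (by positivity)
        _ = ε / 6 * x := by rw [h7]
        _ ≤ ε / 2 * x := by
            apply mul_le_mul_of_nonneg_right _ hx0.le
            linarith
        _ ≤ L := hlogY
  have hexp : c₁ * s ≤ 1 / (2 * 10 ^ 12) * phi (max t 2) L := by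
    rw [hc₁, mul_assoc]
    exact mul_le_mul_of_nonneg_left hphi (by norm_num)
  have hJ := log_count hN1 hx (by linarith)
  have h64 : 64 * x ≤ Real.exp (c * s) := by
    refine le_trans ?_ (pow_le_exp8 (by positivity))
    have h4 : √x / 2 ≤ s ^ 2 := by
      rw [hs, Real.sq_sqrt (by positivity), div_le_div_iff₀ (by norm_num) (by linarith)]
      have h5 : Real.log x ≤ 2 * √x := by
        have h6 : Real.log (√x) ≤ √x - 1 := Real.log_le_sub_one_of_pos (Real.sqrt_pos.2 hx0)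
        have h7 : Real.log (√x) = Real.log x / 2 := Real.log_sqrt hx0.le
        linarith
      have h7 : √x * √x = x := Real.mul_self_sqrt hx0.le
      nlinarith [Real.sqrt_nonneg x]
    have h5 : x ^ 2 / 16 ≤ s ^ 8 := by
      have h6 : (√x / 2) ^ 4 ≤ (s ^ 2) ^ 4 := pow_le_pow_left₀ (by positivity) h4 4
      have h7 : (√x / 2) ^ 4 = x ^ 2 / 16 := by
        have h8 : √x ^ 2 = x := Real.sq_sqrt hx0.le
        calc (√x / 2) ^ 4 = (√x ^ 2) ^ 2 / 16 := by ring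
          _ = _ := by rw [h8]
      rw [h7] at h6
      calc x ^ 2 / 16 ≤ (s ^ 2) ^ 4 := h6
        _ = s ^ 8 := by ring
    rw [mul_pow]
    have h6 : 64 * 16 * 40320 ≤ x * c ^ 8 := by rwa [div_le_iff₀ (by positivity)] at hxc
    have h7 : c ^ 8 * (x ^ 2 / 16) ≤ c ^ 8 * s ^ 8 := mul_le_mul_of_nonneg_left h5 (by positivity)
    have h8 : (64 * 16 * 40320) * x ≤ (x * c ^ 8) * x := mul_le_mul_of_nonneg_right h6 hx0.le
    rw [le_div_iff₀ (by norm_num)]
    nlinarith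
  calc (A.card : ℝ) ≤ 32 * (((Nat.log 2 N : ℕ) : ℝ) + 1) * 1 * N *
        Real.exp (-(1 / (2 * 10 ^ 12) * phi (max t 2) L)) := h3
    _ ≤ 32 * (2 * x) * 1 * N * Real.exp (-(c₁ * s)) := by
        gcongr
    _ = (64 * x) * (N * Real.exp (-(c₁ * s))) := by ring
    _ ≤ Real.exp (c * s) * (N * Real.exp (-(c₁ * s))) := by
        apply mul_le_mul_of_nonneg_right h64
        positivity
    _ = N * Real.exp (-(c * s)) := by
        rw [mul_left_comm, ← Real.exp_add]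
        congr 2
        have : c₁ = 2 * c := by rw [hc]; ring
        rw [this]
        ring

end H24.HS
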