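import Mathlib
set_option autoImplicit false

/-! Behrend's sets, with their Freiman isomorphisms to spheres. -/

namespace H24.HS

open Finset Behrend

/-- the real point of a point with natural coordinates -/
def rv {n : ℕ} (x : Fin n → ℕ) : Fin n → ℝ := fun i => (x i : ℝ)

theorem rv_inj {n : ℕ} : Function.Injective (rv : (Fin n → ℕ) → Fin n → ℝ) := by
  intro x y h
  funext i
  have : (x i : ℝ) = (y i : ℝ) := congrFun h i
  exact_mod_cast this

theorem rv_add {n : ℕ} (x y : Fin n → ℕ) : rv (x + y) = rv x + rv y := by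
  funext i
  simp [rv]

theorem beh_core (n d k : ℕ) (hd : 1 ≤ d) :
    ∃ (A : Finset ℤ) (X : Finset (Fin n → ℝ)) (ψ : ℤ → Fin n → ℝ),
      A ⊆ Finset.Icc 1 (((2 * d - 1) ^ n : ℕ) : ℤ) ∧ (∀ x ∈ X, ∑ i, x i ^ 2 = (k : ℝ)) ∧
      IsAddFreimanIso 2 (A : Set ℤ) (X : Set (Fin n → ℝ)) ψ ∧ A.card = (sphere n d k).card := by
  classical
  have hinj : Set.InjOn (fun x : Fin n → ℕ => ((Behrend.map (2 * d - 1) x : ℕ) : ℤ) + 1)
      {x : Fin n → ℕ | ∀ i, x i < 2 * d - 1} := by
    intro x hx y hy hxy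
    apply map_injOn hx hy
    have h1 : ((Behrend.map (2 * d - 1) x : ℕ) : ℤ) = ((Behrend.map (2 * d - 1) y : ℕ) : ℤ) :=
      add_right_cancel hxy
    exact_mod_cast h1
  have hsub : ∀ x ∈ sphere n d k, ∀ i, x i < 2 * d - 1 := by
    intro x hx i
    have := mem_box.1 (sphere_subset_box hx) i
    omega
  obtain ⟨g, hg⟩ : ∃ g : (Fin n → ℕ) → ℤ,
    g = fun x => ((Behrend.map (2 * d - 1) x : ℕ) : ℤ) + 1 := ⟨_, rfl⟩
  rw [← hg] at hinj
  have hginj : Set.InjOn g (sphere n d k) := hinj.mono fun x hx => hsub x hx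
  have hsum : ∀ x ∈ sphere n d k, ∀ y ∈ sphere n d k, ∀ z ∈ sphere n d k, ∀ w ∈ sphere n d k,
      (x + y = z + w ↔ g x + g y = g z + g w) := by
    intro x hx y hy z hz w hw
    have h1 : ∀ a b : Fin n → ℕ, g a + g b = g (a + b) + 1 := by
      intro a b
      rw [hg]
      simp only [map_add]
      push_cast
      ring
    rw [h1, h1]
    constructor
    · intro h; rw [h]
    · intro h
      have hlt : ∀ a ∈ sphere n d k, ∀ b ∈ sphere n d k, ∀ i, (a + b) i < 2 * d - 1 := by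
        intro a ha b hb i
        have h2 := mem_box.1 (sphere_subset_box ha) i
        have h3 := mem_box.1 (sphere_subset_box hb) i
        rw [Pi.add_apply]
        omega
      exact hinj (hlt x hx y hy) (hlt z hz w hw) (add_right_cancel h)
  have hψ : ∀ a : ℤ, ∃ x : Fin n → ℕ, a ∈ (sphere n d k).image g → x ∈ sphere n d k ∧ g x = a := by
    intro a
    by_cases ha : a ∈ (sphere n d k).image g
    · obtain ⟨x, hx, hxa⟩ := Finset.mem_image.1 ha
      exact ⟨x, fun _ => ⟨hx, hxa⟩⟩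
    · exact ⟨0, fun h => absurd h ha⟩
  choose ι hι using hψ
  have hιg : ∀ x ∈ sphere n d k, ι (g x) = x := by
    intro x hx
    obtain ⟨h1, h2⟩ := hι (g x) (Finset.mem_image_of_mem g hx)
    exact hginj h1 hx h2
  refine ⟨(sphere n d k).image g, (sphere n d k).image rv, fun a => rv (ι a), ?_, ?_, ?_,
    Finset.card_image_of_injOn hginj⟩
  · intro a ha
    obtain ⟨x, hx, rfl⟩ := Finset.mem_image.1 ha
    have h1 : Behrend.map (2 * d - 1) x < (2 * d - 1) ^ n := by
      obtain ⟨e, rfl⟩ : ∃ e, d = e + 1 := ⟨d - 1, by omega⟩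
      have h2 := map_le_of_mem_box (sphere_subset_box hx)
      have h3 : (2 * (e + 1) - 1) = 2 * e + 1 := by omega
      rw [h3, Nat.add_sub_cancel] at h2
      rw [h3]
      exact h2.trans_lt sum_lt
    rw [Finset.mem_Icc, hg]
    constructor
    · have : (0 : ℤ) ≤ ((Behrend.map (2 * d - 1) x : ℕ) : ℤ) := Int.natCast_nonneg _
      simp only
      omega
    · simp only
      omega
  · intro x hx
    obtain ⟨y, hy, rfl⟩ := Finset.mem_image.1 hx
    have h1 : ∑ i, y i ^ 2 = k := (Finset.mem_filter.1 hy).2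
    rw [← h1]
    push_cast
    rfl
  · rw [isAddFreimanIso_two]
    constructor
    · refine ⟨?_, ?_, ?_⟩
      · intro a ha
        exact Finset.mem_coe.2 (Finset.mem_image_of_mem rv (hι a (Finset.mem_coe.1 ha)).1)
      · intro a ha b hb hab
        have h1 := rv_inj hab
        rw [← (hι a (Finset.mem_coe.1 ha)).2, ← (hι b (Finset.mem_coe.1 hb)).2, h1]
      · intro x hx
        obtain ⟨y, hy, rfl⟩ := Finset.mem_image.1 (Finset.mem_coe.1 hx)
        refine ⟨g y, Finset.mem_coe.2 (Finset.mem_image_of_mem g hy), ?_⟩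
        show rv (ι (g y)) = rv y
        rw [hιg y hy]
    · intro a ha b hb c hc e he
      obtain ⟨ha1, ha2⟩ := hι a (Finset.mem_coe.1 ha)
      obtain ⟨hb1, hb2⟩ := hι b (Finset.mem_coe.1 hb)
      obtain ⟨hc1, hc2⟩ := hι c (Finset.mem_coe.1 hc)
      obtain ⟨he1, he2⟩ := hι e (Finset.mem_coe.1 he)
      have h1 := hsum (ι a) ha1 (ι b) hb1 (ι c) hc1 (ι e) he1
      rw [ha2, hb2, hc2, he2] at h1
      rw [← h1, ← rv_add, ← rv_add]
      exact ⟨fun h => rv_inj h, fun h => by rw [h]⟩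

open Real in
theorem beh_large {N : ℕ} (hN : 4096 ≤ N) :
    ∃ n d k : ℕ, 1 ≤ d ∧ (2 * d - 1) ^ n ≤ N ∧
      (N : ℝ) * Real.exp (-4 * √(Real.log N)) < ((sphere n d k).card : ℝ) := by
  have hn : 0 < ((nValue N : ℕ) : ℝ) := Nat.cast_pos.2 (nValue_pos <| hN.trans' <| by norm_num1)
  have hd : 0 < dValue N := dValue_pos (hN.trans' <| by norm_num1)
  have hN₀ : 0 < (N : ℝ) := Nat.cast_pos.2 (hN.trans' <| by norm_num1)
  have hn₂ : 2 < nValue N := three_le_nValue <| hN.trans' <| by norm_num1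
  obtain ⟨k, hk⟩ := exists_large_sphere (nValue N) (dValue N)
  refine ⟨nValue N, dValue N, k, hd, le_N (hN.trans' <| by norm_num1), ?_⟩
  have haux : ((dValue N : ℝ) ^ (nValue N - 2) / nValue N : ℝ) ≤ (sphere (nValue N) (dValue N) k).card := by
    refine le_trans (le_of_eq ?_) hk
    have hd0 : (dValue N : ℝ) ≠ 0 := by
      have : (0 : ℝ) < dValue N := by exact_mod_cast hd
      exact this.ne'
    push_cast
    rw [pow_sub₀ _ hd0 hn₂.le]
    field_simp
  refine lt_of_lt_of_le ?_ haux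
  calc
    _ ≤ ((N : ℝ) ^ (nValue N : ℝ)⁻¹ / rexp 1 : ℝ) ^ (nValue N - 2) / nValue N := ?_
    _ < _ := by gcongr; exacts [(tsub_pos_of_lt hn₂).ne', bound hN]
  rw [← rpow_natCast, div_rpow (rpow_nonneg hN₀.le _) (exp_pos _).le, ← rpow_mul hN₀.le,
    inv_mul_eq_div, Nat.cast_sub hn₂.le, Nat.cast_two, same_sub_div hn.ne', exp_one_rpow,
    div_div, rpow_sub hN₀, rpow_one, div_div, div_eq_mul_inv]
  gcongr _ * ?_
  rw [mul_inv, mul_inv, ← exp_neg, ← rpow_neg (Nat.cast_nonneg _), neg_sub, ← div_eq_mul_inv]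
  have : exp (-4 * √(log N)) = exp (-2 * √(log N)) * exp (-2 * √(log N)) := by
    rw [← exp_add, ← add_mul]
    norm_num
  rw [this]
  gcongr
  · rw [← le_log_iff_exp_le (rpow_pos_of_pos hN₀ _), log_rpow hN₀, ← le_div_iff₀, mul_div_assoc,
      div_sqrt, neg_mul, neg_le_neg_iff, div_mul_eq_mul_div, div_le_iff₀ hn]
    · gcongr
      apply Nat.le_ceil
    refine Real.sqrt_pos.2 (log_pos ?_)
    rw [Nat.one_lt_cast]
    exact hN.trans_lt' (by norm_num1)
  · refine (exp_neg_two_mul_le <| Real.sqrt_pos.2 <| log_pos ?_).le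
    rw [Nat.one_lt_cast]
    exact hN.trans_lt' (by norm_num1)

/-- **Behrend's sets** -/
theorem behrend_sets {N : ℕ} (hN : 1 ≤ N) :
    ∃ (m : ℕ) (ρ : ℝ) (A : Finset ℤ) (X : Finset (Fin m → ℝ)) (ψ : ℤ → Fin m → ℝ),
      A ⊆ Finset.Icc 1 (N : ℤ) ∧ (∀ x ∈ X, ∑ i, x i ^ 2 = ρ) ∧
      IsAddFreimanIso 2 (A : Set ℤ) (X : Set (Fin m → ℝ)) ψ ∧
      (N : ℝ) * Real.exp (-4 * √(Real.log N)) ≤ A.card := by
  rcases le_or_gt 4096 N with h | h
  · obtain ⟨n, d, k, hd, hle, hcard⟩ := beh_large h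
    obtain ⟨A, X, ψ, hA, hX, hψ, hAc⟩ := beh_core n d k hd
    refine ⟨n, k, A, X, ψ, ?_, hX, hψ, ?_⟩
    · refine hA.trans (Finset.Icc_subset_Icc_right ?_)
      exact_mod_cast hle
    · rw [hAc]; exact hcard.le
  · refine ⟨0, 0, {1}, {0}, fun _ => 0, ?_, ?_, ?_, ?_⟩
    · intro x hx
      rw [Finset.mem_singleton] at hx
      rw [hx, Finset.mem_Icc]
      exact ⟨le_refl _, by exact_mod_cast hN⟩
    · intro x _
      simp
    · rw [isAddFreimanIso_two]
      constructor
      · refine ⟨?_, ?_, ?_⟩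
        · intro a _; simp
        · intro a ha b hb _
          simp at ha hb
          rw [ha, hb]
        · intro x _
          refine ⟨1, by simp, ?_⟩
          exact Subsingleton.elim _ _
      · intro a ha b hb c hc e he
        simp at ha hb hc he
        subst ha hb hc he
        simp
    · rw [Finset.card_singleton, Nat.cast_one]
      exact lower_bound_le_one hN h.le

end H24.HS
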