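import Pool.Agent.H24.HS.Sect
import Pool.Agent.H24.Lib.R_seed8.H137R2.Weak.Final
import Pool.Agent.H24.Lib.R_seed8.H217R3.AK.Bsg
set_option autoImplicit false

/-! Doubling and energy of sets on hypersurfaces. -/

namespace H24.HS

open Finset
open scoped Pointwise

variable {V : Type*} [AddCommGroup V] [Module ℝ V]

theorem tf (n : ℕ) (x : V) (hn : n ≠ 0) (hx : n • x = 0) : x = 0 := by
  have h1 : (n : ℝ) • x = 0 := by rw [Nat.cast_smul_eq_nsmul]; exact hx
  rcases smul_eq_zero.1 h1 with h2 | h2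
  · exact absurd (by exact_mod_cast h2) hn
  · exact h2

theorem finite_eq_bot (P : AddSubgroup V) [Finite P] : P = ⊥ := by
  rw [AddSubgroup.eq_bot_iff_forall]
  intro x hx
  have h1 : Nat.card P • (⟨x, hx⟩ : P) = 0 := card_nsmul_eq_zero'
  have h2 : Nat.card P • x = 0 := by
    have h3 := congrArg P.subtype h1
    rw [map_nsmul, map_zero] at h3
    exact h3
  exact tf _ x Nat.card_pos.ne' h2

/-- a set of small doubling has a large piece of small dimension -/
theorem weak [hdec : DecidableEq V] {K : ℝ} {A : Finset V} (hA : A.Nonempty)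
    (hK : ((A + A).card : ℝ) ≤ K * A.card) :
    ∃ (H : Submodule ℝ V) (t : V) (S : Finset V), Module.Finite ℝ H ∧
      (Module.finrank ℝ H : ℝ) ≤ 480 * Real.log K + 1 ∧ S ⊆ A ∧ (∀ a ∈ S, a - t ∈ H) ∧
      (A.card : ℝ) ≤ K ^ 185 * S.card := by
  have hsub : hdec = fun a b => Classical.propDecidable (a = b) := Subsingleton.elim _ _
  subst hsub
  obtain ⟨P, S, T, hPfin, _, _, hS, hTA, hT, hcov⟩ := H137.Weak.weak_marton hA hK
  classical
  have hP : P = ⊥ := finite_eq_bot P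
  set H : Submodule ℝ V := Submodule.span ℝ (S : Set V) with hH
  have hcov' : ∀ a ∈ A, ∃ t ∈ T, a - t ∈ H := by
    intro a ha
    obtain ⟨t, ht, o, ⟨m, hm, hmo⟩, h⟩ := hcov a ha
    refine ⟨t, ht, ?_⟩
    have ho : o = 0 := tf m o (by rcases hm with ⟨l, rfl⟩; omega) hmo
    rw [ho, sub_zero, hP, bot_sup_eq] at h
    have h2 : AddSubgroup.closure (S : Set V) ≤ H.toAddSubgroup := by
      rw [AddSubgroup.closure_le]
      exact Submodule.subset_span
    exact h2 h
  obtain ⟨t, ht, hle⟩ : ∃ t ∈ T, A.card ≤ T.card * (A.filter fun a => a - t ∈ H).card := by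
    by_contra hcon
    push Not at hcon
    have hTne : T.Nonempty := by
      obtain ⟨a, ha⟩ := hA
      obtain ⟨t, ht, _⟩ := hcov' a ha
      exact ⟨t, ht⟩
    have h1 : A ⊆ T.biUnion fun t => A.filter fun a => a - t ∈ H := by
      intro a ha
      obtain ⟨t, ht, h⟩ := hcov' a ha
      exact Finset.mem_biUnion.2 ⟨t, ht, Finset.mem_filter.2 ⟨ha, h⟩⟩
    have h2 : A.card ≤ ∑ t ∈ T, (A.filter fun a => a - t ∈ H).card :=
      (Finset.card_le_card h1).trans Finset.card_biUnion_le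
    have h3 : ∑ t ∈ T, T.card * (A.filter fun a => a - t ∈ H).card < ∑ _t ∈ T, A.card :=
      Finset.sum_lt_sum_of_nonempty hTne hcon
    rw [← Finset.mul_sum, Finset.sum_const, smul_eq_mul] at h3
    have h4 : T.card * A.card ≤ T.card * ∑ t ∈ T, (A.filter fun a => a - t ∈ H).card :=
      Nat.mul_le_mul_left _ h2
    omega
  refine ⟨H, t, A.filter fun a => a - t ∈ H, ?_, ?_, Finset.filter_subset _ _,
    fun a ha => (Finset.mem_filter.1 ha).2, ?_⟩
  · exact FiniteDimensional.span_finset ℝ S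
  · refine le_trans ?_ hS
    exact_mod_cast finrank_span_finset_le_card S
  · calc (A.card : ℝ) ≤ T.card * (A.filter fun a => a - t ∈ H).card := by exact_mod_cast hle
      _ ≤ _ := mul_le_mul_of_nonneg_right hT (Nat.cast_nonneg _)

/-- a hypersurface of degree at most `k` which contains no line -/
def Hyp (k : ℕ) (f : V → ℝ) : Prop :=
  Pol k f ∧ ∀ x u : V, u ≠ 0 → ∃ t : ℝ, f (x + t • u) ≠ 0

theorem log_two_le {K : ℝ} (hK : 1 ≤ K) : (0.69 : ℝ) < Real.log (2 * K) := by
  have h1 := Real.log_two_gt_d9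
  have h2 : Real.log 2 ≤ Real.log (2 * K) := Real.log_le_log (by norm_num) (by linarith)
  linarith

theorem one_le_of_doubling {V : Type*} [AddCommGroup V] [DecidableEq V] {K : ℝ} {A : Finset V} (hA : A.Nonempty)
    (hK : ((A + A).card : ℝ) ≤ K * A.card) : 1 ≤ K := by
  have h1 : (A.card : ℝ) ≤ (A + A).card := by
    exact_mod_cast Finset.card_le_card_add_right hA
  have hApos : (0 : ℝ) < A.card := by exact_mod_cast hA.card_pos
  nlinarith

/-- one hypersurface -/
theorem doubling_one [DecidableEq V] {K : ℝ} {X : Finset V} (hX : X.Nonempty) {k : ℕ} {f : V → ℝ}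
    (hf : Hyp k f) (hfX : ∀ x ∈ X, f x = 0) (hK : ((X + X).card : ℝ) ≤ K * X.card) :
    Real.log X.card ≤ 1800 * 2 ^ k * Real.log (2 * K) ^ 2 := by
  have hK1 := one_le_of_doubling hX hK
  have hK0 : 0 < K := by linarith
  obtain ⟨H, t, S, hHfin, hHr, hSX, hSt, hcard⟩ := weak hX hK
  have hXpos : (0 : ℝ) < X.card := by exact_mod_cast hX.card_pos
  have hsec := sections hK1 hf.1 hfX hf.2 hK (Module.finrank ℝ H) H hHfin rfl t S hSX hSt
  set j := Module.finrank ℝ H with hj
  set B : ℝ := 2 * (2 * K ^ 2) ^ (2 ^ k) with hB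
  have hB1 : (1 : ℝ) ≤ B := by
    have h1 : (1 : ℝ) ≤ (2 * K ^ 2) ^ (2 ^ k) := by
      apply one_le_pow₀
      nlinarith
    linarith
  have h1 : (X.card : ℝ) ≤ K ^ 185 * B ^ j :=
    hcard.trans (mul_le_mul_of_nonneg_left hsec (by positivity))
  have h2 : Real.log X.card ≤ 185 * Real.log K + j * Real.log B := by
    have h3 := Real.log_le_log hXpos h1
    rw [Real.log_mul (by positivity) (by positivity), Real.log_pow, Real.log_pow] at h3
    exact_mod_cast h3
  set κ := Real.log (2 * K) with hκ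
  have hκ69 : 0.69 < κ := log_two_le hK1
  have hlogK0 : 0 ≤ Real.log K := Real.log_nonneg hK1
  have hκ' : κ = Real.log 2 + Real.log K := by
    rw [hκ, Real.log_mul (by norm_num) hK0.ne']
  have hl2 := Real.log_two_gt_d9
  have h2k : (1 : ℝ) ≤ 2 ^ k := one_le_pow₀ (by norm_num)
  have hlogB : Real.log B ≤ 3 * 2 ^ k * κ := by
    rw [hB, Real.log_mul (by norm_num) (by positivity), Real.log_pow,
      Real.log_mul (by norm_num) (by positivity), Real.log_pow]
    push_cast
    have h3 : Real.log 2 + 2 * Real.log K ≤ 2 * κ := by linarith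
    have h4 : (2 : ℝ) ^ k * (Real.log 2 + 2 * Real.log K) ≤ 2 ^ k * (2 * κ) :=
      mul_le_mul_of_nonneg_left h3 (by positivity)
    have h5 : Real.log 2 ≤ 2 ^ k * κ := by nlinarith
    nlinarith
  have hlogB0 : 0 ≤ Real.log B := Real.log_nonneg hB1
  have h6 : (j : ℝ) * Real.log B ≤ (480 * Real.log K + 1) * (3 * 2 ^ k * κ) :=
    mul_le_mul hHr hlogB hlogB0 (by positivity)
  have h7 : (480 * Real.log K + 1) * (3 * 2 ^ k * κ) ≤ (482 * κ) * (3 * 2 ^ k * κ) := by
    apply mul_le_mul_of_nonneg_right _ (by positivity)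
    linarith
  have h8 : 185 * Real.log K ≤ 300 * 2 ^ k * κ ^ 2 := by
    have h9 : 185 * Real.log K ≤ 185 * κ := by linarith
    have h10 : 185 * κ ≤ 300 * κ ^ 2 := by nlinarith
    have h11 : 300 * κ ^ 2 ≤ 300 * 2 ^ k * κ ^ 2 := by
      have : 0 ≤ κ ^ 2 := sq_nonneg _
      nlinarith
    linarith
  nlinarith

/-- many hypersurfaces -/
theorem doubling_many [DecidableEq V] {K : ℝ} {X : Finset V} (hX : X.Nonempty) {k T : ℕ}
    {f : Fin T → V → ℝ} (hf : ∀ i, Hyp k (f i)) (hfX : ∀ x ∈ X, ∃ i, f i x = 0)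
    (hK : ((X + X).card : ℝ) ≤ K * X.card) :
    Real.log X.card ≤ 2000 * 2 ^ k * Real.log (2 * K * T) ^ 2 := by
  classical
  have hK1 := one_le_of_doubling hX hK
  have hXpos : (0 : ℝ) < X.card := by exact_mod_cast hX.card_pos
  obtain ⟨x₀, hx₀⟩ := hX
  obtain ⟨i₀, _⟩ := hfX x₀ hx₀
  have hT1 : 1 ≤ T := by
    have := i₀.pos
    omega
  have hT1' : (1 : ℝ) ≤ T := by exact_mod_cast hT1
  obtain ⟨i, hi⟩ : ∃ i : Fin T, X.card ≤ T * (X.filter fun x => f i x = 0).card := by
    by_contra hcon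
    push Not at hcon
    have h1 : X ⊆ (Finset.univ : Finset (Fin T)).biUnion fun i => X.filter fun x => f i x = 0 := by
      intro x hx
      obtain ⟨i, hi⟩ := hfX x hx
      exact Finset.mem_biUnion.2 ⟨i, Finset.mem_univ _, Finset.mem_filter.2 ⟨hx, hi⟩⟩
    have h2 := (Finset.card_le_card h1).trans Finset.card_biUnion_le
    have h3 : ∑ i : Fin T, T * (X.filter fun x => f i x = 0).card < ∑ _i : Fin T, X.card :=
      Finset.sum_lt_sum_of_nonempty ⟨i₀, Finset.mem_univ _⟩ fun i _ => hcon i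
    rw [← Finset.mul_sum, Finset.sum_const, Finset.card_univ, Fintype.card_fin,
      smul_eq_mul] at h3
    have h4 := Nat.mul_le_mul_left T h2
    omega
  set Y := X.filter fun x => f i x = 0 with hY
  have hXY : (X.card : ℝ) ≤ T * Y.card := by exact_mod_cast hi
  have hYpos : (0 : ℝ) < Y.card := by
    by_contra hcon
    push Not at hcon
    have : (Y.card : ℝ) = 0 := le_antisymm hcon (Nat.cast_nonneg _)
    rw [this, mul_zero] at hXY
    linarith
  have hYne : Y.Nonempty := Finset.card_pos.1 (by exact_mod_cast hYpos)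
  have hYK : ((Y + Y).card : ℝ) ≤ (K * T) * Y.card := by
    have h1 : ((Y + Y).card : ℝ) ≤ (X + X).card := by
      exact_mod_cast Finset.card_le_card
        (Finset.add_subset_add (Finset.filter_subset _ _) (Finset.filter_subset _ _))
    calc ((Y + Y).card : ℝ) ≤ K * X.card := h1.trans hK
      _ ≤ K * (T * Y.card) := mul_le_mul_of_nonneg_left hXY (by linarith)
      _ = _ := by ring
  have h1 := doubling_one hYne (hf i) (fun x hx => (Finset.mem_filter.1 hx).2) hYK
  rw [← mul_assoc] at h1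
  have hKT : 1 ≤ K * T := by nlinarith
  set l := Real.log (2 * K * T) with hl
  have hl69 : 0.69 < l := by
    rw [hl, mul_assoc]; exact log_two_le hKT
  have h2 : Real.log X.card ≤ Real.log T + Real.log Y.card := by
    rw [← Real.log_mul (by linarith) hYpos.ne']
    exact Real.log_le_log hXpos hXY
  have h3 : Real.log T ≤ l := by
    apply Real.log_le_log (by linarith)
    nlinarith
  have h2k : (1 : ℝ) ≤ 2 ^ k := one_le_pow₀ (by norm_num)
  have h4 : l ≤ 200 * 2 ^ k * l ^ 2 := by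
    have h5 : l ≤ 200 * l ^ 2 := by nlinarith
    have h6 : 200 * l ^ 2 ≤ 200 * 2 ^ k * l ^ 2 := by
      have : 0 ≤ l ^ 2 := sq_nonneg _
      nlinarith
    linarith
  nlinarith

/-- Balog–Szemerédi–Gowers in the form used here -/
theorem bsg' {G : Type*} [AddCommGroup G] [DecidableEq G] {K : ℝ} (hK1 : 1 ≤ K) {A : Finset G}
    (hA : A.Nonempty) (hE : (A.card : ℝ) ^ 3 ≤ K * (A.addEnergy A : ℕ)) :
    ∃ B ⊆ A, B.Nonempty ∧ (A.card : ℝ) ≤ 8 * K * B.card ∧
      ((B + B).card : ℝ) ≤ (2 ^ 44 * K ^ 20) * B.card := by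
  obtain ⟨B, hBA, hB, hAB, hBB⟩ := Pool.Agent.H217R3.AK.bsg A hA K (by linarith) hE
  have hBpos : (0 : ℝ) < B.card := by exact_mod_cast hB.card_pos
  set K₁ : ℝ := 2 ^ 22 * K ^ 10 with hK₁
  refine ⟨B, hBA, hB, hAB, ?_⟩
  have e : (2 : ℝ) ^ 44 * K ^ 20 = K₁ ^ 2 := by rw [hK₁]; ring
  rw [e]
  have h1 := Finset.pluennecke_ruzsa_inequality_nsmul_sub_nsmul_sub hB B 2 0
  have h2 : ((2 • B - 0 • B : Finset G)) = B + B := by
    rw [zero_nsmul, sub_zero, two_nsmul]
  rw [h2] at h1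
  have h3 : (((B + B).card : ℚ≥0) : ℝ) ≤
      ((((B - B).card : ℚ≥0) / (B.card : ℚ≥0)) ^ (2 + 0) * (B.card : ℚ≥0) : ℚ≥0) := by
    exact_mod_cast h1
  push_cast at h3
  refine h3.trans ?_
  have h4 : ((B - B).card : ℝ) / B.card ≤ K₁ := by
    rw [div_le_iff₀ hBpos]; exact hBB
  have h5 : (0 : ℝ) ≤ ((B - B).card : ℝ) / B.card := by positivity
  have h6 : (((B - B).card : ℝ) / B.card) ^ (2 + 0) ≤ K₁ ^ 2 := by
    simpa using pow_le_pow_left₀ h5 h4 2
  exact mul_le_mul_of_nonneg_right h6 hBpos.le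

/-- energy of sets on hypersurfaces -/
theorem energy_many [DecidableEq V] {K : ℝ} (hK1 : 1 ≤ K) {X : Finset V} (hX : X.Nonempty)
    {k T : ℕ} {f : Fin T → V → ℝ} (hf : ∀ i, Hyp k (f i)) (hfX : ∀ x ∈ X, ∃ i, f i x = 0)
    (hE : (X.card : ℝ) ^ 3 ≤ K * (X.addEnergy X : ℕ)) :
    Real.log X.card ≤ 5000000 * 2 ^ k * Real.log (2 * K * T) ^ 2 := by
  obtain ⟨B, hBX, hB, hXB, hBB⟩ := bsg' hK1 hX hE
  have hBpos : (0 : ℝ) < B.card := by exact_mod_cast hB.card_pos
  have hXpos : (0 : ℝ) < X.card := by exact_mod_cast hX.card_pos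
  have hK0 : 0 < K := by linarith
  obtain ⟨x₀, hx₀⟩ := hX
  obtain ⟨i₀, _⟩ := hfX x₀ hx₀
  have hT1 : 1 ≤ T := by
    have := i₀.pos
    omega
  have hT1' : (1 : ℝ) ≤ T := by exact_mod_cast hT1
  have h1 := doubling_many hB hf (fun x hx => hfX x (hBX hx)) hBB
  set l := Real.log (2 * K * T) with hl
  have hKT : 1 ≤ K * T := by nlinarith
  have hl69 : 0.69 < l := by
    rw [hl, mul_assoc]; exact log_two_le hKT
  have hl' : l = Real.log 2 + Real.log K + Real.log T := by
    rw [hl, Real.log_mul (by positivity) (by positivity), Real.log_mul (by norm_num) hK0.ne']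
  have hlogK : 0 ≤ Real.log K := Real.log_nonneg hK1
  have hlogT : 0 ≤ Real.log T := Real.log_nonneg hT1'
  have hl2 := Real.log_two_gt_d9
  have h2 : Real.log (2 * (2 ^ 44 * K ^ 20) * T) ≤ 45 * l := by
    rw [Real.log_mul (by positivity) (by positivity), Real.log_mul (by norm_num) (by positivity),
      Real.log_mul (by positivity) (by positivity), Real.log_pow, Real.log_pow]
    push_cast
    linarith
  have h2' : 0 ≤ Real.log (2 * (2 ^ 44 * K ^ 20) * T) := by
    apply Real.log_nonneg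
    have : (1 : ℝ) ≤ K ^ 20 := one_le_pow₀ hK1
    nlinarith
  have h3 : Real.log X.card ≤ 3 * l + Real.log B.card := by
    have h4 := Real.log_le_log hXpos hXB
    rw [Real.log_mul (by positivity) hBpos.ne', Real.log_mul (by norm_num) hK0.ne'] at h4
    have h5 : Real.log 8 = 3 * Real.log 2 := by
      rw [show (8 : ℝ) = 2 ^ 3 by norm_num, Real.log_pow]; norm_num
    linarith
  have h2k : (1 : ℝ) ≤ 2 ^ k := one_le_pow₀ (by norm_num)
  have h6 : Real.log (2 * (2 ^ 44 * K ^ 20) * T) ^ 2 ≤ (45 * l) ^ 2 :=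
    pow_le_pow_left₀ h2' h2 2
  have h7 : 2000 * 2 ^ k * Real.log (2 * (2 ^ 44 * K ^ 20) * T) ^ 2 ≤
      2000 * 2 ^ k * (45 * l) ^ 2 := mul_le_mul_of_nonneg_left h6 (by positivity)
  have h8 : 3 * l ≤ 10 * 2 ^ k * l ^ 2 := by
    have h9 : 3 * l ≤ 10 * l ^ 2 := by nlinarith
    have h10 : 10 * l ^ 2 ≤ 10 * 2 ^ k * l ^ 2 := by
      have : 0 ≤ l ^ 2 := sq_nonneg _
      nlinarith
    linarith
  have h9 : (0 : ℝ) ≤ 2 ^ k * l ^ 2 := by positivity
  nlinarith

end H24.HS
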