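import Mathlib
set_option autoImplicit false

/-! Polynomial functions on vector spaces and their periods. -/

namespace H24.HS

/-- `f` is a polynomial map of degree at most `k`: all `k + 1`-fold differences vanish. -/
def Deg {G : Type*} [AddCommGroup G] : ℕ → (G → ℝ) → Prop
  | 0, f => ∀ x y, f x = f y
  | k + 1, f => ∀ u, Deg k (fun x => f (x + u) - f x)

section group

variable {G : Type*} [AddCommGroup G]

theorem Deg.succ {k : ℕ} : ∀ {f : G → ℝ}, Deg k f → Deg (k + 1) f := by
  induction k with
  | zero =>
    intro f hf u x y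
    show f (x + u) - f x = f (y + u) - f y
    rw [hf (x + u) x, hf (y + u) y]
    ring
  | succ k ih =>
    intro f hf u
    exact ih (hf u)

theorem Deg.mono {k l : ℕ} (h : k ≤ l) {f : G → ℝ} (hf : Deg k f) : Deg l f := by
  induction l, h using Nat.le_induction with
  | base => exact hf
  | succ l _ ih => exact ih.succ

theorem Deg.shift {k : ℕ} : ∀ {f : G → ℝ}, Deg k f → ∀ v : G, Deg k (fun x => f (x + v)) := by
  induction k with
  | zero => intro f hf v x y; exact hf _ _
  | succ k ih =>
    intro f hf v u
    have h1 := ih (hf u) v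
    have h2 : (fun x => (fun x => f (x + u) - f x) (x + v)) =
        fun x => (fun x => f (x + v)) (x + u) - (fun x => f (x + v)) x := by
      funext x
      show f (x + v + u) - f (x + v) = f (x + u + v) - f (x + v)
      rw [add_right_comm]
    rw [h2] at h1
    exact h1

theorem Deg.const (c : ℝ) : Deg 0 (fun _ : G => c) := fun _ _ => rfl

theorem Deg.add {k : ℕ} : ∀ {f g : G → ℝ}, Deg k f → Deg k g → Deg k (fun x => f x + g x) := by
  induction k with
  | zero => intro f g hf hg x y; show f x + g x = f y + g y; rw [hf x y, hg x y]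
  | succ k ih =>
    intro f g hf hg u
    have h1 := ih (hf u) (hg u)
    have h2 : (fun x => f (x + u) - f x + (g (x + u) - g x)) =
        fun x => f (x + u) + g (x + u) - (f x + g x) := by
      funext x; ring
    rw [h2] at h1
    exact h1

theorem Deg.smul {k : ℕ} (c : ℝ) : ∀ {f : G → ℝ}, Deg k f → Deg k (fun x => c * f x) := by
  induction k with
  | zero => intro f hf x y; show c * f x = c * f y; rw [hf x y]
  | succ k ih =>
    intro f hf u
    have h1 := ih (hf u)
    have h2 : (fun x => c * (f (x + u) - f x)) = fun x => c * f (x + u) - c * f x := by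
      funext x; ring
    rw [h2] at h1
    exact h1

theorem Deg.sum {ι : Type*} {k : ℕ} (s : Finset ι) {f : ι → G → ℝ} (h : ∀ i ∈ s, Deg k (f i)) :
    Deg k (fun x => ∑ i ∈ s, f i x) := by
  classical
  induction s using Finset.induction_on with
  | empty =>
    have h1 : (fun x : G => ∑ i ∈ (∅ : Finset ι), f i x) = fun _ => (0 : ℝ) := by
      funext x; simp
    rw [h1]
    exact (Deg.const 0).mono (Nat.zero_le _)
  | insert a s ha ih =>
    have h1 : (fun x => ∑ i ∈ insert a s, f i x) = fun x => f a x + ∑ i ∈ s, f i x := by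
      funext x; rw [Finset.sum_insert ha]
    rw [h1]
    exact (h a (Finset.mem_insert_self _ _)).add (ih fun i hi => h i (Finset.mem_insert_of_mem hi))

theorem Deg.mul {n : ℕ} : ∀ {a b : ℕ}, a + b = n → ∀ {f g : G → ℝ}, Deg a f → Deg b g →
    Deg n (fun x => f x * g x) := by
  induction n with
  | zero =>
    intro a b hab f g hf hg
    obtain ⟨rfl, rfl⟩ : a = 0 ∧ b = 0 := by omega
    intro x y
    show f x * g x = f y * g y
    rw [hf x y, hg x y]
  | succ n ih =>
    intro a b hab f g hf hg u
    have h2 : (fun x => f (x + u) * g (x + u) - f x * g x) =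
        fun x => (f (x + u) - f x) * g (x + u) + f x * (g (x + u) - g x) := by
      funext x; ring
    rw [show (fun x => (fun x => f x * g x) (x + u) - (fun x => f x * g x) x) =
      fun x => f (x + u) * g (x + u) - f x * g x from rfl, h2]
    rcases a with _ | a
    · rcases b with _ | b
      · omega
      · have h3 : (fun x => (f (x + u) - f x) * g (x + u) + f x * (g (x + u) - g x)) =
            fun x => f x * (g (x + u) - g x) := by
          funext x
          rw [hf (x + u) x]
          ring
        rw [h3]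
        exact ih (a := 0) (b := b) (by omega) hf (hg u)
    · have h4 : Deg n (fun x => (f (x + u) - f x) * g (x + u)) :=
        ih (a := a) (b := b) (by omega) (hf u) (hg.shift u)
      rcases b with _ | b
      · have h3 : (fun x => (f (x + u) - f x) * g (x + u) + f x * (g (x + u) - g x)) =
            fun x => (f (x + u) - f x) * g (x + u) := by
          funext x
          rw [hg (x + u) x]
          ring
        rw [h3]
        exact h4
      · exact h4.add (ih (a := a + 1) (b := b) (by omega) hf (hg u))

end group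

section vec

variable {V : Type*} [AddCommGroup V] [Module ℝ V]

/-- polynomial functions on a real vector space: all `k + 1`-fold differences vanish and the
restrictions to lines are polynomials. -/
structure Pol (k : ℕ) (g : V → ℝ) : Prop where
  deg : Deg k g
  line : ∀ x u : V, ∃ p : Polynomial ℝ, ∀ t : ℝ, g (x + t • u) = p.eval t

theorem Pol.diff {k : ℕ} {g : V → ℝ} (hg : Pol (k + 1) g) (u : V) :
    Pol k (fun x => g (x + u) - g x) := by
  refine ⟨hg.deg u, fun x v => ?_⟩
  obtain ⟨p, hp⟩ := hg.line (x + u) v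
  obtain ⟨q, hq⟩ := hg.line x v
  refine ⟨p - q, fun t => ?_⟩
  rw [Polynomial.eval_sub, ← hp, ← hq]
  show g (x + t • v + u) - g (x + t • v) = g (x + u + t • v) - g (x + t • v)
  rw [add_right_comm]

/-- the periods of a polynomial function on a flat form a subspace -/
theorem exists_per {k : ℕ} {g : V → ℝ} (hg : Pol k g) (H : Submodule ℝ V) (z : V) :
    ∃ R : Submodule ℝ V, ∀ u, u ∈ R ↔ u ∈ H ∧ ∀ h ∈ H, g (z + h + u) = g (z + h) := by
  have hadd : ∀ u v : V, (u ∈ H ∧ ∀ h ∈ H, g (z + h + u) = g (z + h)) →
      (v ∈ H ∧ ∀ h ∈ H, g (z + h + v) = g (z + h)) →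
      (u + v ∈ H ∧ ∀ h ∈ H, g (z + h + (u + v)) = g (z + h)) := by
    rintro u v ⟨hu, hu'⟩ ⟨hv, hv'⟩
    refine ⟨H.add_mem hu hv, fun h hh => ?_⟩
    have h1 := hv' (h + u) (H.add_mem hh hu)
    rw [← add_assoc] at h1
    rw [← add_assoc, h1, hu' h hh]
  have hzero : ((0 : V) ∈ H ∧ ∀ h ∈ H, g (z + h + 0) = g (z + h)) :=
    ⟨H.zero_mem, fun h _ => by rw [add_zero]⟩
  refine ⟨{ carrier := {u | u ∈ H ∧ ∀ h ∈ H, g (z + h + u) = g (z + h)}
            add_mem' := fun {u v} hu hv => hadd u v hu hv
            zero_mem' := hzero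
            smul_mem' := ?_ }, fun u => Iff.rfl⟩
  rintro t u ⟨hu, hu'⟩
  refine ⟨H.smul_mem t hu, fun h hh => ?_⟩
  obtain ⟨p, hp⟩ := hg.line (z + h) u
  have hn : ∀ n : ℕ, ((n : ℝ) • u ∈ H ∧ ∀ h ∈ H, g (z + h + (n : ℝ) • u) = g (z + h)) := by
    intro n
    induction n with
    | zero => simp
    | succ n ih =>
      have := hadd _ _ ih ⟨hu, hu'⟩
      have e : (n : ℝ) • u + u = ((n + 1 : ℕ) : ℝ) • u := by
        push_cast; rw [add_smul, one_smul]
      rw [e] at this
      exact this
  have hpc : p = Polynomial.C (g (z + h)) := by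
    apply Polynomial.eq_of_infinite_eval_eq
    refine Set.Infinite.mono ?_ (Set.infinite_range_of_injective (Nat.cast_injective (R := ℝ)))
    rintro _ ⟨n, rfl⟩
    show p.eval (n : ℝ) = (Polynomial.C (g (z + h))).eval (n : ℝ)
    rw [← hp, Polynomial.eval_C]
    exact (hn n).2 h hh
  rw [hp, hpc, Polynomial.eval_C]

end vec

end H24.HS
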