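import Pool.Agent.H24.HS.Form
set_option autoImplicit false

/-! Freiman homomorphisms with fibres of bounded size. -/

namespace H24.HS

open Finset
open scoped Pointwise

/-- the energy of a set in terms of the energy of its image -/
theorem energy_fibre {G V : Type*} [AddCommGroup G] [AddCommGroup V] [DecidableEq G]
    [DecidableEq V] (A : Finset G) (ψ : G → V) (hψ : IsAddFreimanHom 2 (A : Set G) Set.univ ψ)
    (F : ℕ) (hF : ∀ v ∈ A.image ψ, (A.filter fun a => ψ a = v).card ≤ F) :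
    A.addEnergy A ≤ F ^ 3 * (A.image ψ).addEnergy (A.image ψ) := by
  classical
  unfold Finset.addEnergy
  set Q := ((A ×ˢ A) ×ˢ A ×ˢ A).filter
    (fun x : (G × G) × G × G => x.1.1 + x.2.1 = x.1.2 + x.2.2) with hQ
  set f : (G × G) × G × G → (V × V) × V × V :=
    fun x => ((ψ x.1.1, ψ x.1.2), (ψ x.2.1, ψ x.2.2)) with hf
  have hfib : ∀ b ∈ Q.image f, (Q.filter fun a => f a = b).card ≤ F ^ 3 := by
    intro b hb
    obtain ⟨q, hq, rfl⟩ := Finset.mem_image.1 hb
    obtain ⟨h2, _⟩ := Finset.mem_filter.1 hq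
    obtain ⟨h4, h5⟩ := Finset.mem_product.1 h2
    obtain ⟨h6, h7⟩ := Finset.mem_product.1 h4
    obtain ⟨h8, _⟩ := Finset.mem_product.1 h5
    have e : F ^ 3 = F * (F * F) := by ring
    have h10 : ((A.filter fun a => ψ a = ψ q.1.1) ×ˢ (A.filter fun a => ψ a = ψ q.1.2) ×ˢ
        (A.filter fun a => ψ a = ψ q.2.1)).card ≤ F ^ 3 := by
      rw [Finset.card_product, Finset.card_product, e]
      exact Nat.mul_le_mul (hF _ (Finset.mem_image_of_mem ψ h6))
        (Nat.mul_le_mul (hF _ (Finset.mem_image_of_mem ψ h7)) (hF _ (Finset.mem_image_of_mem ψ h8)))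
    refine le_trans (Finset.card_le_card_of_injOn (fun x => (x.1.1, x.1.2, x.2.1)) ?_ ?_) h10
    · intro x hx
      obtain ⟨hxQ, hxf⟩ := Finset.mem_filter.1 (Finset.mem_coe.1 hx)
      obtain ⟨g2, _⟩ := Finset.mem_filter.1 hxQ
      obtain ⟨g4, g5⟩ := Finset.mem_product.1 g2
      obtain ⟨g6, g7⟩ := Finset.mem_product.1 g4
      obtain ⟨g8, _⟩ := Finset.mem_product.1 g5
      exact Finset.mem_coe.2 (Finset.mem_product.2
        ⟨Finset.mem_filter.2 ⟨g6, congrArg (fun z => z.1.1) hxf⟩, Finset.mem_product.2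
          ⟨Finset.mem_filter.2 ⟨g7, congrArg (fun z => z.1.2) hxf⟩,
            Finset.mem_filter.2 ⟨g8, congrArg (fun z => z.2.1) hxf⟩⟩⟩)
    · intro x hx y hy hxy
      have h2 := (Finset.mem_filter.1 (Finset.mem_filter.1 (Finset.mem_coe.1 hx)).1).2
      have h3 := (Finset.mem_filter.1 (Finset.mem_filter.1 (Finset.mem_coe.1 hy)).1).2
      have e1 : x.1.1 = y.1.1 := congrArg (fun z => z.1) hxy
      have e2 : x.1.2 = y.1.2 := congrArg (fun z => z.2.1) hxy
      have e3 : x.2.1 = y.2.1 := congrArg (fun z => z.2.2) hxy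
      rw [e1, e2, e3] at h2
      have e4 : x.2.2 = y.2.2 := add_left_cancel (h2.symm.trans h3)
      exact Prod.ext (Prod.ext e1 e2) (Prod.ext e3 e4)
  refine (Finset.card_le_mul_card_image Q (F ^ 3) hfib).trans (Nat.mul_le_mul_left _ ?_)
  apply Finset.card_le_card
  intro b hb
  obtain ⟨q, hq, rfl⟩ := Finset.mem_image.1 hb
  obtain ⟨h2, h3⟩ := Finset.mem_filter.1 hq
  obtain ⟨h4, h5⟩ := Finset.mem_product.1 h2
  obtain ⟨h6, h7⟩ := Finset.mem_product.1 h4
  obtain ⟨h8, h9⟩ := Finset.mem_product.1 h5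
  refine Finset.mem_filter.2 ⟨Finset.mem_product.2
    ⟨Finset.mem_product.2 ⟨Finset.mem_image_of_mem ψ h6, Finset.mem_image_of_mem ψ h7⟩,
      Finset.mem_product.2 ⟨Finset.mem_image_of_mem ψ h8, Finset.mem_image_of_mem ψ h9⟩⟩, ?_⟩
  exact hψ.add_eq_add (Finset.mem_coe.2 h6) (Finset.mem_coe.2 h8) (Finset.mem_coe.2 h7)
    (Finset.mem_coe.2 h9) h3

/-- a part of `A` on which the fibres have nearly the same size -/
theorem fibre_main {V : Type*} [AddCommGroup V] [DecidableEq V] {N : ℕ} {A : Finset ℤ}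
    (hA : A ⊆ Finset.Icc 1 (N : ℤ)) (hne : A.Nonempty) (ψ : ℤ → V)
    (hψ : IsAddFreimanHom 2 (A : Set ℤ) Set.univ ψ) {F : ℝ}
    (hF : ∀ v, ((A.filter fun a => ψ a = v).card : ℝ) ≤ F) :
    ∃ Y ⊆ A.image ψ, (A.card : ℝ) ≤ (Nat.log 2 N + 1) * F * Y.card ∧
      ∀ M e : ℝ, ((Y.addEnergy Y : ℕ) : ℝ) ≤ 2 * M * Y.card ^ 3 * Real.exp (-e) →
        (A.card : ℝ) ≤ 32 * (Nat.log 2 N + 1) * M * N * Real.exp (-e) := by
  classical
  have hAN := card_le_N hA
  set f : V → ℕ := fun v => (A.filter fun a => ψ a = v).card with hf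
  have hf1 : ∀ a ∈ A, 1 ≤ f (ψ a) := fun a ha =>
    Finset.card_pos.2 ⟨a, Finset.mem_filter.2 ⟨ha, rfl⟩⟩
  have hfN : ∀ a ∈ A, f (ψ a) ≤ N := fun a _ =>
    (Finset.card_le_card (Finset.filter_subset _ _)).trans hAN
  set J := Nat.log 2 N + 1 with hJ
  have hmaps : ∀ a ∈ A, Nat.log 2 (f (ψ a)) ∈ Finset.range J := fun a ha => by
    rw [Finset.mem_range, hJ]
    exact Nat.lt_succ_of_le (Nat.log_mono_right (hfN a ha))
  obtain ⟨j, _, hj⟩ : ∃ j ∈ Finset.range J,
      A.card ≤ J * (A.filter fun a => Nat.log 2 (f (ψ a)) = j).card := by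
    by_contra hcon
    push Not at hcon
    have h1 := Finset.card_eq_sum_card_fiberwise hmaps
    have h2 : ∑ j ∈ Finset.range J, J * (A.filter fun a => Nat.log 2 (f (ψ a)) = j).card <
        ∑ _j ∈ Finset.range J, A.card :=
      Finset.sum_lt_sum_of_nonempty ⟨0, Finset.mem_range.2 (by omega)⟩ hcon
    rw [← Finset.mul_sum, ← h1, Finset.sum_const, Finset.card_range, smul_eq_mul] at h2
    exact lt_irrefl _ h2
  set B := A.filter fun a => Nat.log 2 (f (ψ a)) = j with hB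
  have hBA : B ⊆ A := Finset.filter_subset _ _
  have hBpos : 0 < B.card := by
    by_contra hcon
    have h0 : B.card = 0 := by omega
    rw [h0, mul_zero] at hj
    exact absurd hj (not_le.2 hne.card_pos)
  have hBne : B.Nonempty := Finset.card_pos.1 hBpos
  have hfibB : ∀ v ∈ B.image ψ, (B.filter fun a => ψ a = v) = A.filter fun a => ψ a = v := by
    intro v hv
    obtain ⟨b, hb, rfl⟩ := Finset.mem_image.1 hv
    ext a
    rw [Finset.mem_filter, Finset.mem_filter, Finset.mem_filter]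
    constructor
    · rintro ⟨⟨h1, _⟩, h2⟩; exact ⟨h1, h2⟩
    · rintro ⟨h1, h2⟩
      refine ⟨⟨h1, ?_⟩, h2⟩
      rw [h2]
      exact (Finset.mem_filter.1 hb).2
  have hup : ∀ v ∈ B.image ψ, (B.filter fun a => ψ a = v).card ≤ 2 ^ (j + 1) := by
    intro v hv
    rw [hfibB v hv]
    obtain ⟨b, hb, rfl⟩ := Finset.mem_image.1 hv
    have h1 := (Finset.mem_filter.1 hb).2
    have h2 := Nat.lt_pow_succ_log_self (b := 2) (by norm_num) (f (ψ b))
    rw [h1] at h2
    exact h2.le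
  have hlow : ∀ v ∈ B.image ψ, 2 ^ j ≤ (B.filter fun a => ψ a = v).card := by
    intro v hv
    rw [hfibB v hv]
    obtain ⟨b, hb, rfl⟩ := Finset.mem_image.1 hv
    have h1 := (Finset.mem_filter.1 hb).2
    have h2 := Nat.pow_log_le_self 2 (x := f (ψ b))
      (Nat.pos_iff_ne_zero.1 (hf1 b (hBA hb)))
    rw [h1] at h2
    exact h2
  have hBsum : B.card = ∑ v ∈ B.image ψ, (B.filter fun a => ψ a = v).card :=
    Finset.card_eq_sum_card_fiberwise (fun x hx => Finset.mem_image_of_mem ψ hx)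
  have hBlow : 2 ^ j * (B.image ψ).card ≤ B.card := by
    rw [hBsum, mul_comm, ← smul_eq_mul, ← Finset.sum_const]
    exact Finset.sum_le_sum hlow
  have hBup : (B.card : ℝ) ≤ F * (B.image ψ).card := by
    rw [hBsum]
    push_cast
    rw [mul_comm, ← nsmul_eq_mul, ← Finset.sum_const]
    refine Finset.sum_le_sum fun v hv => ?_
    rw [hfibB v hv]
    exact hF v
  have hjr : (A.card : ℝ) ≤ J * B.card := by exact_mod_cast hj
  have hJr : (J : ℝ) = Nat.log 2 N + 1 := by rw [hJ]; push_cast; rfl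
  refine ⟨B.image ψ, Finset.image_subset_image hBA, ?_, ?_⟩
  · calc (A.card : ℝ) ≤ J * B.card := hjr
      _ ≤ J * (F * (B.image ψ).card) := mul_le_mul_of_nonneg_left hBup (Nat.cast_nonneg _)
      _ = _ := by rw [hJr]; ring
  · intro M e hE
    have hψB : IsAddFreimanHom 2 (B : Set ℤ) Set.univ ψ :=
      hψ.subset (Finset.coe_subset.2 hBA) (Set.mapsTo_univ _ _)
    have h1 : ((B.addEnergy B : ℕ) : ℝ) ≤ ((2 : ℝ) ^ (j + 1)) ^ 3 *
        ((B.image ψ).addEnergy (B.image ψ) : ℕ) := by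
      exact_mod_cast energy_fibre B ψ hψB (2 ^ (j + 1)) hup
    have h2 := energy_interval (N := N) (hBA.trans hA)
    have hBr : (0 : ℝ) < B.card := by exact_mod_cast hBpos
    have h3 : ((2 : ℝ) ^ j * (B.image ψ).card) ^ 3 ≤ (B.card : ℝ) ^ 3 := by
      apply pow_le_pow_left₀ (by positivity)
      exact_mod_cast hBlow
    have hEnn : 0 ≤ 2 * M * ((B.image ψ).card : ℝ) ^ 3 * Real.exp (-e) :=
      le_trans (Nat.cast_nonneg _) hE
    have hYpos : (0 : ℝ) < (B.image ψ).card := by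
      exact_mod_cast (hBne.image ψ).card_pos
    have hM : 0 ≤ M := by
      by_contra hcon
      push Not at hcon
      have h4 : 2 * M * ((B.image ψ).card : ℝ) ^ 3 * Real.exp (-e) < 0 := by
        have h5 : 0 < ((B.image ψ).card : ℝ) ^ 3 * Real.exp (-e) := by positivity
        have h6 : 2 * M * ((B.image ψ).card : ℝ) ^ 3 * Real.exp (-e) =
            (2 * M) * (((B.image ψ).card : ℝ) ^ 3 * Real.exp (-e)) := by ring
        rw [h6]
        exact mul_neg_of_neg_of_pos (by linarith) h5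
      linarith
    have h4 : (B.card : ℝ) * B.card ^ 3 ≤ (32 * M * N * Real.exp (-e)) * B.card ^ 3 := by
      calc (B.card : ℝ) * B.card ^ 3 = (B.card : ℝ) ^ 4 := by ring
        _ ≤ 2 * N * ((B.addEnergy B : ℕ) : ℝ) := h2
        _ ≤ 2 * N * (((2 : ℝ) ^ (j + 1)) ^ 3 * (2 * M * (B.image ψ).card ^ 3 * Real.exp (-e))) := by
            apply mul_le_mul_of_nonneg_left _ (by positivity)
            exact h1.trans (mul_le_mul_of_nonneg_left hE (by positivity))
        _ = (32 * M * N * Real.exp (-e)) * ((2 : ℝ) ^ j * (B.image ψ).card) ^ 3 := by ring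
        _ ≤ _ := mul_le_mul_of_nonneg_left h3 (by positivity)
    have h5 : (B.card : ℝ) ≤ 32 * M * N * Real.exp (-e) :=
      le_of_mul_le_mul_right h4 (by positivity)
    calc (A.card : ℝ) ≤ J * B.card := hjr
      _ ≤ J * (32 * M * N * Real.exp (-e)) := mul_le_mul_of_nonneg_left h5 (Nat.cast_nonneg _)
      _ = _ := by rw [hJr]; ring

end H24.HS
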