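import Pool.Agent.H24.HS.Bound
set_option autoImplicit false

/-! Real polynomials give polynomial functions. -/

namespace H24.HS

open Finset

theorem deg_coord {m : ℕ} (i : Fin m) : Deg 1 (fun x : Fin m → ℝ => x i) := by
  intro u x y
  show (x + u) i - x i = (y + u) i - y i
  rw [Pi.add_apply, Pi.add_apply]
  ring

theorem Deg.pow {G : Type*} [AddCommGroup G] {a : ℕ} {f : G → ℝ} (hf : Deg a f) (n : ℕ) :
    Deg (n * a) (fun x => f x ^ n) := by
  induction n with
  | zero =>
    have h1 : (fun x => f x ^ 0) = fun _ => (1 : ℝ) := by funext x; rw [pow_zero]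
    rw [h1, zero_mul]
    exact Deg.const 1
  | succ n ih =>
    have h1 : (fun x => f x ^ (n + 1)) = fun x => f x ^ n * f x := by funext x; rw [pow_succ]
    rw [h1]
    exact Deg.mul (a := n * a) (b := a) (by ring) ih hf

theorem deg_prod {m : ℕ} (s : Finset (Fin m)) (e : Fin m → ℕ) :
    Deg (∑ i ∈ s, e i) (fun x : Fin m → ℝ => ∏ i ∈ s, x i ^ e i) := by
  classical
  induction s using Finset.induction_on with
  | empty =>
    have h1 : (fun x : Fin m → ℝ => ∏ i ∈ (∅ : Finset (Fin m)), x i ^ e i) = fun _ => (1 : ℝ) := by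
      funext x; simp
    rw [h1, Finset.sum_empty]
    exact Deg.const 1
  | insert a s ha ih =>
    have h1 : (fun x : Fin m → ℝ => ∏ i ∈ insert a s, x i ^ e i) =
        fun x => x a ^ e a * ∏ i ∈ s, x i ^ e i := by
      funext x; rw [Finset.prod_insert ha]
    rw [h1, Finset.sum_insert ha]
    exact Deg.mul (a := e a * 1) (b := ∑ i ∈ s, e i) (by rw [mul_one]) ((deg_coord a).pow (e a)) ih

theorem deg_eval {m : ℕ} (P : MvPolynomial (Fin m) ℝ) :
    Deg P.totalDegree (fun x : Fin m → ℝ => MvPolynomial.eval x P) := by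
  have h1 : (fun x : Fin m → ℝ => MvPolynomial.eval x P) =
      fun x => ∑ s ∈ P.support, MvPolynomial.coeff s P * ∏ i, x i ^ s i := by
    funext x; exact MvPolynomial.eval_eq' x P
  rw [h1]
  apply Deg.sum
  intro s hs
  apply Deg.smul
  have h2 : ∑ i, s i ≤ P.totalDegree := by
    have h3 := MvPolynomial.le_totalDegree hs
    rw [Finsupp.sum_fintype _ _ (fun _ => rfl)] at h3
    exact h3
  exact (deg_prod Finset.univ s).mono h2

theorem line_eval {m : ℕ} (P : MvPolynomial (Fin m) ℝ) (x u : Fin m → ℝ) :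
    ∃ p : Polynomial ℝ, ∀ t : ℝ, MvPolynomial.eval (x + t • u) P = p.eval t := by
  refine ⟨MvPolynomial.eval₂ Polynomial.C
    (fun i => Polynomial.C (x i) + Polynomial.C (u i) * Polynomial.X) P, fun t => ?_⟩
  have h1 : (Polynomial.evalRingHom t).comp (MvPolynomial.eval₂Hom Polynomial.C
      (fun i => Polynomial.C (x i) + Polynomial.C (u i) * Polynomial.X)) =
      (MvPolynomial.eval (x + t • u) : MvPolynomial (Fin m) ℝ →+* ℝ) := by
    apply MvPolynomial.ringHom_ext
    · intro r
      simp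
    · intro i
      simp only [RingHom.comp_apply, MvPolynomial.coe_eval₂Hom, MvPolynomial.eval₂_X,
        Polynomial.coe_evalRingHom, Polynomial.eval_add, Polynomial.eval_C, Polynomial.eval_mul,
        Polynomial.eval_X, MvPolynomial.eval_X, Pi.add_apply, Pi.smul_apply, smul_eq_mul]
      ring
  have h2 := congrArg (fun φ => φ P) h1
  simp only [RingHom.comp_apply, MvPolynomial.coe_eval₂Hom, Polynomial.coe_evalRingHom] at h2
  exact h2.symm

theorem pol_eval {m : ℕ} {k : ℕ} (P : MvPolynomial (Fin m) ℝ) (hP : P.totalDegree ≤ k) :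
    Pol k (fun x : Fin m → ℝ => MvPolynomial.eval x P) :=
  ⟨(deg_eval P).mono hP, fun x u => line_eval P x u⟩

theorem hyp_eval {m : ℕ} {k : ℕ} {P : MvPolynomial (Fin m) ℝ} (hP : P.totalDegree ≤ k)
    (hline : ∀ x u : Fin m → ℝ, u ≠ 0 → ∃ t : ℝ, MvPolynomial.eval (x + t • u) P ≠ 0) :
    Hyp k (fun x : Fin m → ℝ => MvPolynomial.eval x P) :=
  ⟨pol_eval P hP, hline⟩

end H24.HS
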