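import Pool.Agent.H24.HS.Line
import Pool.Agent.H24.HS.Poly
set_option autoImplicit false

/-! Exponential forms of the bounds; sets of integers. -/

namespace H24.HS

open Finset
open scoped Pointwise

theorem energy_le_cube {G : Type*} [AddCommGroup G] [DecidableEq G] (X : Finset G) :
    X.addEnergy X ≤ X.card ^ 3 := by
  have h1 : X.card ^ 3 = (X ×ˢ X ×ˢ X).card := by
    rw [Finset.card_product, Finset.card_product]; ring
  rw [h1]
  unfold Finset.addEnergy
  apply Finset.card_le_card_of_injOn (fun x => (x.1.1, x.1.2, x.2.1))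
  · intro x hx
    have h2 := Finset.mem_filter.1 (Finset.mem_coe.1 hx)
    have h3 := Finset.mem_product.1 h2.1
    have h4 := Finset.mem_product.1 h3.1
    have h5 := Finset.mem_product.1 h3.2
    exact Finset.mem_coe.2 (Finset.mem_product.2 ⟨h4.1, Finset.mem_product.2 ⟨h4.2, h5.1⟩⟩)
  · intro x hx y hy hxy
    have h2 := (Finset.mem_filter.1 (Finset.mem_coe.1 hx)).2
    have h3 := (Finset.mem_filter.1 (Finset.mem_coe.1 hy)).2
    have e1 : x.1.1 = y.1.1 := congrArg (fun z => z.1) hxy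
    have e2 : x.1.2 = y.1.2 := congrArg (fun z => z.2.1) hxy
    have e3 : x.2.1 = y.2.1 := congrArg (fun z => z.2.2) hxy
    rw [e1, e2, e3] at h2
    have e4 : x.2.2 = y.2.2 := add_left_cancel (h2.symm.trans h3)
    exact Prod.ext (Prod.ext e1 e2) (Prod.ext e3 e4)

variable {V : Type*} [AddCommGroup V] [Module ℝ V]

/-- energy on hypersurfaces -/
theorem energy_hyp [DecidableEq V] (X : Finset V) {k T : ℕ} {f : Fin T → V → ℝ}
    (hf : ∀ i, Hyp k (f i)) (hfX : ∀ x ∈ X, ∃ i, f i x = 0) :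
    ((X.addEnergy X : ℕ) : ℝ) ≤
      2 * T * X.card ^ 3 * Real.exp (-(1 / 2500 * √(Real.log X.card / 2 ^ k))) := by
  rcases X.eq_empty_or_nonempty with rfl | hX
  · simp
  have hXpos : (0 : ℝ) < X.card := by exact_mod_cast hX.card_pos
  have hE0 : (0 : ℝ) < (X.addEnergy X : ℕ) := by
    exact_mod_cast Finset.addEnergy_pos hX hX
  have hEle : ((X.addEnergy X : ℕ) : ℝ) ≤ (X.card : ℝ) ^ 3 := by
    exact_mod_cast energy_le_cube X
  obtain ⟨K, hK⟩ : ∃ K : ℝ, K = (X.card : ℝ) ^ 3 / (X.addEnergy X : ℕ) := ⟨_, rfl⟩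
  have hK1 : 1 ≤ K := by
    rw [hK, le_div_iff₀ hE0, one_mul]; exact hEle
  have hKE : (X.card : ℝ) ^ 3 = K * (X.addEnergy X : ℕ) := by
    rw [hK, div_mul_cancel₀ _ hE0.ne']
  obtain ⟨x₀, hx₀⟩ := id hX
  obtain ⟨i₀, _⟩ := hfX x₀ hx₀
  have hT1 : 1 ≤ T := by
    have := i₀.pos
    omega
  have hT1' : (1 : ℝ) ≤ T := by exact_mod_cast hT1
  have h1 := energy_many hK1 hX hf hfX hKE.le
  obtain ⟨l, hl⟩ : ∃ l : ℝ, l = Real.log (2 * K * T) := ⟨_, rfl⟩
  rw [← hl] at h1
  have hKT : 1 ≤ K * T := by nlinarith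
  have hl69 : 0.69 < l := by
    rw [hl, mul_assoc]; exact log_two_le hKT
  have h2k : (0 : ℝ) < 2 ^ k := by positivity
  have h2 : √(Real.log X.card / 2 ^ k) ≤ 2500 * l := by
    rw [Real.sqrt_le_left (by linarith)]
    rw [div_le_iff₀ h2k]
    have h3 : 0 ≤ 2 ^ k * l ^ 2 := by positivity
    nlinarith
  have h3 : Real.exp (-l) ≤ Real.exp (-(1 / 2500 * √(Real.log X.card / 2 ^ k))) := by
    apply Real.exp_le_exp.2
    linarith
  have h4 : Real.exp l = 2 * K * T := by
    rw [hl, Real.exp_log (by positivity)]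
  have h5 : ((X.addEnergy X : ℕ) : ℝ) = 2 * T * X.card ^ 3 * Real.exp (-l) := by
    have h6 : (2 * K * T) ≠ 0 := by positivity
    rw [Real.exp_neg, h4, hKE, eq_mul_inv_iff_mul_eq₀ h6]
    ring
  rw [h5]
  exact mul_le_mul_of_nonneg_left h3
    (mul_nonneg (mul_nonneg (by norm_num) (Nat.cast_nonneg _)) (pow_nonneg hXpos.le 3))

/-- the exponent in the theorem on few collinear points -/
noncomputable def phi (t : ℕ) (L : ℝ) : ℝ :=
  min (√(L / (1 + Real.log (1 + L)))) (L / Real.log t)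

theorem phi_le_sqrt {t : ℕ} {L : ℝ} (hL : 0 ≤ L) : phi t L ≤ √L := by
  refine (min_le_left _ _).trans (Real.sqrt_le_sqrt ?_)
  have h1 : 0 ≤ Real.log (1 + L) := Real.log_nonneg (by linarith)
  exact div_le_self hL (by linarith)

theorem sqrt_le_add_one {L : ℝ} (hL : 0 ≤ L) : √L ≤ L + 1 := by
  rw [Real.sqrt_le_left (by linarith)]
  nlinarith

/-- energy of sets with few collinear points -/
theorem energy_few [DecidableEq V] (X : Finset V) {t : ℕ} (ht : 2 ≤ t) (hcol : FewCol t X) :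
    ((X.addEnergy X : ℕ) : ℝ) ≤
      2 * X.card ^ 3 * Real.exp (-(1 / (2 * 10 ^ 12) * phi t (Real.log X.card))) := by
  rcases X.eq_empty_or_nonempty with rfl | hX
  · simp
  have hXpos : (0 : ℝ) < X.card := by exact_mod_cast hX.card_pos
  have hX1 : (1 : ℝ) ≤ X.card := by exact_mod_cast hX.card_pos
  have hE0 : (0 : ℝ) < (X.addEnergy X : ℕ) := by
    exact_mod_cast Finset.addEnergy_pos hX hX
  have hEle : ((X.addEnergy X : ℕ) : ℝ) ≤ (X.card : ℝ) ^ 3 := by
    exact_mod_cast energy_le_cube X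
  obtain ⟨K, hK⟩ : ∃ K : ℝ, K = (X.card : ℝ) ^ 3 / (X.addEnergy X : ℕ) := ⟨_, rfl⟩
  have hK1 : 1 ≤ K := by
    rw [hK, le_div_iff₀ hE0, one_mul]; exact hEle
  have hKE : (X.card : ℝ) ^ 3 = K * (X.addEnergy X : ℕ) := by
    rw [hK, div_mul_cancel₀ _ hE0.ne']
  have h1 := energy_col hK1 hX (t := t) (by omega) hcol hKE.le
  obtain ⟨l, hl⟩ : ∃ l : ℝ, l = Real.log (2 * K) := ⟨_, rfl⟩
  rw [← hl] at h1
  have hl69 : 0.69 < l := by
    rw [hl]; exact log_two_le hK1
  obtain ⟨L, hL⟩ : ∃ L : ℝ, L = Real.log X.card := ⟨_, rfl⟩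
  have hL0 : 0 ≤ L := by rw [hL]; exact Real.log_nonneg hX1
  rw [← hL] at h1 ⊢
  have hlogt : 0 < Real.log t := by
    apply Real.log_pos
    have : (2 : ℝ) ≤ t := by exact_mod_cast ht
    linarith
  have key : 1 / (2 * 10 ^ 12) * phi t L ≤ l := by
    by_contra hcon
    push Not at hcon
    have hp1 : phi t L ≤ √L := phi_le_sqrt hL0
    have hLge : 1 ≤ L := by
      by_contra hL1
      push Not at hL1
      have h2 : √L ≤ 1 := by
        rw [Real.sqrt_le_left (by norm_num)]; linarith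
      have h3 : 1 / (2 * 10 ^ 12) * phi t L ≤ 1 / (2 * 10 ^ 12) * 1 :=
        mul_le_mul_of_nonneg_left (hp1.trans h2) (by norm_num)
      norm_num at h3
      linarith
    have hsq : √L ≤ L := by
      rw [Real.sqrt_le_left hL0]; nlinarith
    have hlL : l ≤ L := by
      have h3 : 1 / (2 * 10 ^ 12) * phi t L ≤ 1 / (2 * 10 ^ 12) * L :=
        mul_le_mul_of_nonneg_left (hp1.trans hsq) (by norm_num)
      linarith
    obtain ⟨w, hw⟩ : ∃ w : ℝ, w = 1 + Real.log (1 + L) := ⟨_, rfl⟩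
    have hw1 : 1 ≤ w := by
      rw [hw]
      have := Real.log_nonneg (show (1 : ℝ) ≤ 1 + L by linarith)
      linarith
    have hlw : 1 + Real.log (1 + l) ≤ w := by
      rw [hw]
      have := Real.log_le_log (show (0 : ℝ) < 1 + l by linarith) (show 1 + l ≤ 1 + L by linarith)
      linarith
    have ha : l < 1 / (2 * 10 ^ 12) * √(L / w) := by
      refine lt_of_lt_of_le hcon (mul_le_mul_of_nonneg_left ?_ (by norm_num))
      rw [hw]; exact min_le_left _ _
    have hb : l < 1 / (2 * 10 ^ 12) * (L / Real.log t) :=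
      lt_of_lt_of_le hcon (mul_le_mul_of_nonneg_left (min_le_right _ _) (by norm_num))
    have hb' : l * Real.log t < 1 / (2 * 10 ^ 12) * L := by
      have := mul_lt_mul_of_pos_right hb hlogt
      have e : 1 / (2 * 10 ^ 12) * (L / Real.log t) * Real.log t = 1 / (2 * 10 ^ 12) * L := by
        field_simp
      rw [e] at this
      exact this
    have ha' : l ^ 2 * w ≤ (1 / (2 * 10 ^ 12)) ^ 2 * L := by
      have h4 : l ^ 2 ≤ (1 / (2 * 10 ^ 12) * √(L / w)) ^ 2 :=
        pow_le_pow_left₀ (by linarith) ha.le 2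
      rw [mul_pow, Real.sq_sqrt (by positivity)] at h4
      have h5 := mul_le_mul_of_nonneg_right h4 (show 0 ≤ w by linarith)
      have e : (1 / (2 * 10 ^ 12)) ^ 2 * (L / w) * w = (1 / (2 * 10 ^ 12)) ^ 2 * L := by
        field_simp
      rw [e] at h5
      exact h5
    have h6 : 10 ^ 12 * l * (Real.log t + l * (1 + Real.log (1 + l))) ≤
        10 ^ 12 * (l * Real.log t) + 10 ^ 12 * (l ^ 2 * w) := by
      have h7 : l ^ 2 * (1 + Real.log (1 + l)) ≤ l ^ 2 * w :=
        mul_le_mul_of_nonneg_left hlw (by positivity)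
      nlinarith
    have h8 : 10 ^ 12 * (l * Real.log t) + 10 ^ 12 * (l ^ 2 * w) <
        10 ^ 12 * (1 / (2 * 10 ^ 12) * L) + 10 ^ 12 * ((1 / (2 * 10 ^ 12)) ^ 2 * L) := by
      have h9 : (10 : ℝ) ^ 12 * (l * Real.log t) < 10 ^ 12 * (1 / (2 * 10 ^ 12) * L) :=
        mul_lt_mul_of_pos_left hb' (by norm_num)
      have h10 : (10 : ℝ) ^ 12 * (l ^ 2 * w) ≤ 10 ^ 12 * ((1 / (2 * 10 ^ 12)) ^ 2 * L) :=
        mul_le_mul_of_nonneg_left ha' (by norm_num)
      linarith
    have h11 : (10 : ℝ) ^ 12 * (1 / (2 * 10 ^ 12) * L) + 10 ^ 12 * ((1 / (2 * 10 ^ 12)) ^ 2 * L) ≤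
        L := by
      norm_num
      linarith
    linarith
  have h3 : Real.exp (-l) ≤ Real.exp (-(1 / (2 * 10 ^ 12) * phi t L)) := by
    apply Real.exp_le_exp.2
    linarith
  have h4 : Real.exp l = 2 * K := by
    rw [hl, Real.exp_log (by positivity)]
  have h5 : ((X.addEnergy X : ℕ) : ℝ) = 2 * X.card ^ 3 * Real.exp (-l) := by
    have h6 : (2 * K) ≠ 0 := by positivity
    rw [Real.exp_neg, h4, hKE, eq_mul_inv_iff_mul_eq₀ h6]
    ring
  rw [h5]
  exact mul_le_mul_of_nonneg_left h3 (mul_nonneg (by norm_num) (pow_nonneg hXpos.le 3))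

/-! ### sets of integers -/

theorem energy_freiman {G V : Type*} [AddCommGroup G] [AddCommGroup V] [DecidableEq G]
    [DecidableEq V]
    (A : Finset G) (ψ : G → V) (hinj : Set.InjOn ψ A)
    (hψ : IsAddFreimanHom 2 (A : Set G) Set.univ ψ) :
    A.addEnergy A ≤ (A.image ψ).addEnergy (A.image ψ) := by
  unfold Finset.addEnergy
  apply Finset.card_le_card_of_injOn (fun x => ((ψ x.1.1, ψ x.1.2), (ψ x.2.1, ψ x.2.2)))
  · intro x hx
    obtain ⟨h2, h3⟩ := Finset.mem_filter.1 (Finset.mem_coe.1 hx)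
    obtain ⟨h4, h5⟩ := Finset.mem_product.1 h2
    obtain ⟨h6, h7⟩ := Finset.mem_product.1 h4
    obtain ⟨h8, h9⟩ := Finset.mem_product.1 h5
    refine Finset.mem_coe.2 (Finset.mem_filter.2 ⟨Finset.mem_product.2
      ⟨Finset.mem_product.2 ⟨Finset.mem_image_of_mem ψ h6, Finset.mem_image_of_mem ψ h7⟩,
        Finset.mem_product.2 ⟨Finset.mem_image_of_mem ψ h8, Finset.mem_image_of_mem ψ h9⟩⟩, ?_⟩)
    exact hψ.add_eq_add (Finset.mem_coe.2 h6) (Finset.mem_coe.2 h8) (Finset.mem_coe.2 h7)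
      (Finset.mem_coe.2 h9) h3
  · intro x hx y hy hxy
    obtain ⟨h2, h3⟩ := Finset.mem_filter.1 (Finset.mem_coe.1 hx)
    obtain ⟨h4, h5⟩ := Finset.mem_product.1 h2
    obtain ⟨h6, h7⟩ := Finset.mem_product.1 h4
    obtain ⟨h8, h9⟩ := Finset.mem_product.1 h5
    obtain ⟨g2, g3⟩ := Finset.mem_filter.1 (Finset.mem_coe.1 hy)
    obtain ⟨g4, g5⟩ := Finset.mem_product.1 g2
    obtain ⟨g6, g7⟩ := Finset.mem_product.1 g4
    obtain ⟨g8, g9⟩ := Finset.mem_product.1 g5
    have e1 : ψ x.1.1 = ψ y.1.1 := congrArg (fun z => z.1.1) hxy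
    have e2 : ψ x.1.2 = ψ y.1.2 := congrArg (fun z => z.1.2) hxy
    have e3 : ψ x.2.1 = ψ y.2.1 := congrArg (fun z => z.2.1) hxy
    have e4 : ψ x.2.2 = ψ y.2.2 := congrArg (fun z => z.2.2) hxy
    exact Prod.ext (Prod.ext (hinj h6 g6 e1) (hinj h7 g7 e2))
      (Prod.ext (hinj h8 g8 e3) (hinj h9 g9 e4))

/-- the energy of a subset of an interval -/
theorem energy_interval {N : ℕ} {A : Finset ℤ} (hA : A ⊆ Finset.Icc 1 (N : ℤ)) :
    (A.card : ℝ) ^ 4 ≤ 2 * N * (A.addEnergy A : ℕ) := by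
  have h1 : A.card ^ 2 * A.card ^ 2 ≤ (A + A).card * (A.addEnergy A) :=
    Finset.le_card_add_mul_addEnergy A A
  have h2 : (A + A).card ≤ 2 * N := by
    have h3 : A + A ⊆ Finset.Icc 1 (2 * N : ℤ) := by
      intro x hx
      obtain ⟨a, ha, b, hb, rfl⟩ := Finset.mem_add.1 hx
      have h4 := Finset.mem_Icc.1 (hA ha)
      have h5 := Finset.mem_Icc.1 (hA hb)
      exact Finset.mem_Icc.2 ⟨by omega, by omega⟩
    refine (Finset.card_le_card h3).trans (le_of_eq ?_)
    rw [Int.card_Icc]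
    omega
  have h3 : A.card ^ 4 ≤ 2 * N * (A.addEnergy A) := by
    calc A.card ^ 4 = A.card ^ 2 * A.card ^ 2 := by ring
      _ ≤ (A + A).card * (A.addEnergy A) := h1
      _ ≤ _ := Nat.mul_le_mul_right _ h2
  exact_mod_cast h3

/-- from the energy to the size -/
theorem size_of_energy {N : ℕ} {A : Finset ℤ} (hA : A ⊆ Finset.Icc 1 (N : ℤ)) (hne : A.Nonempty)
    {M e : ℝ} (hE : ((A.addEnergy A : ℕ) : ℝ) ≤ 2 * M * A.card ^ 3 * Real.exp (-e)) :
    (A.card : ℝ) ≤ 4 * M * N * Real.exp (-e) := by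
  have hpos : (0 : ℝ) < A.card := by exact_mod_cast hne.card_pos
  have h1 := energy_interval hA
  have h2 : (A.card : ℝ) ^ 4 ≤ 2 * N * (2 * M * A.card ^ 3 * Real.exp (-e)) :=
    h1.trans (mul_le_mul_of_nonneg_left hE (by positivity))
  have h3 : (A.card : ℝ) * A.card ^ 3 ≤ (4 * M * N * Real.exp (-e)) * A.card ^ 3 := by
    calc (A.card : ℝ) * A.card ^ 3 = (A.card : ℝ) ^ 4 := by ring
      _ ≤ _ := h2
      _ = _ := by ring
  exact le_of_mul_le_mul_right h3 (by positivity)

theorem card_le_N {N : ℕ} {A : Finset ℤ} (hA : A ⊆ Finset.Icc 1 (N : ℤ)) : A.card ≤ N := by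
  refine (Finset.card_le_card hA).trans (le_of_eq ?_)
  rw [Int.card_Icc]; omega

/-- small sets -/
theorem small_case {N n : ℕ} (hn : 1 ≤ n) (hN : n * n < N) {M y : ℝ} (hM : 1 ≤ M)
    (hy : y ≤ √(Real.log N)) :
    (n : ℝ) ≤ 4 * M * N * Real.exp (-(1 / 2 * y)) := by
  have hn1 : (1 : ℝ) ≤ n := by exact_mod_cast hn
  have hNr : (n : ℝ) * n < N := by exact_mod_cast hN
  have hNpos : (0 : ℝ) < N := by nlinarith
  have hN1 : (1 : ℝ) ≤ N := by nlinarith
  have hL : 0 ≤ Real.log N := Real.log_nonneg hN1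
  have h1 : Real.log n ≤ Real.log N / 2 := by
    have h2 : Real.log ((n : ℝ) * n) ≤ Real.log N := Real.log_le_log (by positivity) hNr.le
    rw [Real.log_mul (by positivity) (by positivity)] at h2
    linarith
  have h3 : (n : ℝ) ≤ Real.exp (Real.log N / 2) := by
    calc (n : ℝ) = Real.exp (Real.log n) := (Real.exp_log (by linarith)).symm
      _ ≤ _ := Real.exp_le_exp.2 h1
  have h4 : y ≤ Real.log N + 1 := hy.trans (sqrt_le_add_one hL)
  have h5 : Real.exp (Real.log N / 2) = N * Real.exp (-(Real.log N / 2)) := by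
    nth_rewrite 2 [← Real.exp_log hNpos]
    rw [← Real.exp_add]
    congr 1
    ring
  have h6 : Real.exp (-(Real.log N / 2)) ≤ Real.exp (1 / 2) * Real.exp (-(1 / 2 * y)) := by
    rw [← Real.exp_add]
    apply Real.exp_le_exp.2
    linarith
  have h7 : Real.exp (1 / 2 : ℝ) ≤ 4 := by
    have h8 := Real.exp_one_lt_d9
    have h9 : Real.exp (1 / 2 : ℝ) ≤ Real.exp 1 := Real.exp_le_exp.2 (by norm_num)
    linarith
  calc (n : ℝ) ≤ N * Real.exp (-(Real.log N / 2)) := h3.trans h5.le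
    _ ≤ N * (Real.exp (1 / 2) * Real.exp (-(1 / 2 * y))) :=
        mul_le_mul_of_nonneg_left h6 hNpos.le
    _ ≤ N * (4 * Real.exp (-(1 / 2 * y))) := by
        gcongr
    _ = 4 * 1 * N * Real.exp (-(1 / 2 * y)) := by ring
    _ ≤ _ := by gcongr

/-- **Sets of integers on hypersurfaces.** -/
theorem interval_hyp [DecidableEq V] {N k T : ℕ} (hT : 1 ≤ T) {A : Finset ℤ}
    (hA : A ⊆ Finset.Icc 1 (N : ℤ)) {f : Fin T → V → ℝ} (hf : ∀ i, Hyp k (f i)) (ψ : ℤ → V)
    (hinj : Set.InjOn ψ A) (hψ : IsAddFreimanHom 2 (A : Set ℤ) Set.univ ψ)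
    (hz : ∀ a ∈ A, ∃ i, f i (ψ a) = 0) :
    (A.card : ℝ) ≤ 4 * T * N * Real.exp (-(1 / 5000 * √(Real.log N / 2 ^ k))) := by
  have hT1 : (1 : ℝ) ≤ T := by exact_mod_cast hT
  rcases A.eq_empty_or_nonempty with rfl | hne
  · simp only [Finset.card_empty, Nat.cast_zero]; positivity
  have hcA : (A.image ψ).card = A.card := Finset.card_image_of_injOn hinj
  have hN1 : 1 ≤ N := hne.card_pos.trans_le (card_le_N hA)
  have hN1' : (1 : ℝ) ≤ N := by exact_mod_cast hN1
  have hL : 0 ≤ Real.log N := Real.log_nonneg hN1'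
  have h2k : (1 : ℝ) ≤ 2 ^ k := one_le_pow₀ (by norm_num)
  by_cases hcase : N ≤ A.card * A.card
  · have h1 := energy_hyp (A.image ψ) hf (by
      intro x hx
      obtain ⟨a, ha, rfl⟩ := Finset.mem_image.1 hx
      exact hz a ha)
    have h2 : ((A.addEnergy A : ℕ) : ℝ) ≤ ((A.image ψ).addEnergy (A.image ψ) : ℕ) := by
      exact_mod_cast energy_freiman A ψ hinj hψ
    rw [hcA] at h1
    have h3 := size_of_energy hA hne (h2.trans h1)
    refine h3.trans ?_
    apply mul_le_mul_of_nonneg_left _ (by positivity)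
    apply Real.exp_le_exp.2
    have hApos : (0 : ℝ) < A.card := by exact_mod_cast hne.card_pos
    have h4 : Real.log N ≤ 2 * Real.log A.card := by
      have h5 : Real.log N ≤ Real.log ((A.card : ℝ) * A.card) :=
        Real.log_le_log (by linarith) (by exact_mod_cast hcase)
      rw [Real.log_mul hApos.ne' hApos.ne'] at h5
      linarith
    have h5 : √(Real.log N / 2 ^ k) ≤ 2 * √(Real.log A.card / 2 ^ k) := by
      rw [Real.sqrt_le_left (by positivity), mul_pow, Real.sq_sqrt (by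
        apply div_nonneg _ (by positivity)
        linarith)]
      have h6 : Real.log N / 2 ^ k ≤ (2 * Real.log A.card) / 2 ^ k :=
        div_le_div_of_nonneg_right h4 (by positivity)
      have h7 : 0 ≤ Real.log A.card / 2 ^ k := by
        apply div_nonneg _ (by positivity)
        linarith
      rw [mul_div_assoc] at h6
      linarith
    linarith
  · push Not at hcase
    have h1 := small_case hne.card_pos hcase (M := T) hT1
      (y := 1 / 2500 * √(Real.log N / 2 ^ k)) (by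
        have h2 : √(Real.log N / 2 ^ k) ≤ √(Real.log N) :=
          Real.sqrt_le_sqrt (div_le_self hL h2k)
        have h3 : 0 ≤ √(Real.log N) := Real.sqrt_nonneg _
        linarith)
    refine h1.trans (le_of_eq ?_)
    congr 2
    ring

/-- **Sets of integers with few collinear points.** -/
theorem interval_few [DecidableEq V] {N t : ℕ} (ht : 2 ≤ t) {A : Finset ℤ}
    (hA : A ⊆ Finset.Icc 1 (N : ℤ)) (ψ : ℤ → V)
    (hinj : Set.InjOn ψ A) (hψ : IsAddFreimanHom 2 (A : Set ℤ) Set.univ ψ)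
    (hcol : FewCol t (A.image ψ)) :
    (A.card : ℝ) ≤ 4 * N * Real.exp (-(1 / (4 * 10 ^ 12) * phi t (Real.log N))) := by
  rcases A.eq_empty_or_nonempty with rfl | hne
  · simp only [Finset.card_empty, Nat.cast_zero]; positivity
  have hcA : (A.image ψ).card = A.card := Finset.card_image_of_injOn hinj
  have hN1 : 1 ≤ N := hne.card_pos.trans_le (card_le_N hA)
  have hN1' : (1 : ℝ) ≤ N := by exact_mod_cast hN1
  have hL : 0 ≤ Real.log N := Real.log_nonneg hN1'
  have hlogt : 0 < Real.log t := by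
    apply Real.log_pos
    have : (2 : ℝ) ≤ t := by exact_mod_cast ht
    linarith
  by_cases hcase : N ≤ A.card * A.card
  · have h1 := energy_few (A.image ψ) ht hcol
    have h2 : ((A.addEnergy A : ℕ) : ℝ) ≤ ((A.image ψ).addEnergy (A.image ψ) : ℕ) := by
      exact_mod_cast energy_freiman A ψ hinj hψ
    rw [hcA] at h1
    have h3 := size_of_energy hA hne (M := 1) (h2.trans (by rw [mul_one]; exact h1))
    rw [mul_one] at h3
    refine h3.trans ?_
    apply mul_le_mul_of_nonneg_left _ (by positivity)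
    apply Real.exp_le_exp.2
    have hApos : (0 : ℝ) < A.card := by exact_mod_cast hne.card_pos
    have h4 : Real.log N ≤ 2 * Real.log A.card := by
      have h5 : Real.log N ≤ Real.log ((A.card : ℝ) * A.card) :=
        Real.log_le_log (by linarith) (by exact_mod_cast hcase)
      rw [Real.log_mul hApos.ne' hApos.ne'] at h5
      linarith
    have h4' : Real.log A.card ≤ Real.log N :=
      Real.log_le_log hApos (by exact_mod_cast card_le_N hA)
    set a := Real.log A.card with ha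
    set b := Real.log N with hb
    have ha0 : 0 ≤ a := by linarith
    have h5 : phi t b ≤ 2 * phi t a := by
      have hla : 0 ≤ Real.log (1 + a) := Real.log_nonneg (by linarith)
      have hlb : Real.log (1 + a) ≤ Real.log (1 + b) := Real.log_le_log (by linarith) (by linarith)
      have h6 : b / (1 + Real.log (1 + b)) ≤ 2 * (a / (1 + Real.log (1 + a))) := by
        calc b / (1 + Real.log (1 + b)) ≤ b / (1 + Real.log (1 + a)) :=
              div_le_div_of_nonneg_left hL (by linarith) (by linarith)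
          _ ≤ (2 * a) / (1 + Real.log (1 + a)) := div_le_div_of_nonneg_right h4 (by linarith)
          _ = _ := by ring
      have h7 : √(b / (1 + Real.log (1 + b))) ≤ 2 * √(a / (1 + Real.log (1 + a))) := by
        have h8 : 0 ≤ a / (1 + Real.log (1 + a)) := div_nonneg ha0 (by linarith)
        rw [Real.sqrt_le_left (by positivity), mul_pow, Real.sq_sqrt h8]
        linarith
      have h8 : b / Real.log t ≤ 2 * (a / Real.log t) := by
        calc b / Real.log t ≤ (2 * a) / Real.log t := div_le_div_of_nonneg_right h4 hlogt.le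
          _ = _ := by ring
      unfold phi
      rcases le_total (√(a / (1 + Real.log (1 + a)))) (a / Real.log t) with h9 | h9
      · rw [min_eq_left h9]; exact (min_le_left _ _).trans h7
      · rw [min_eq_right h9]; exact (min_le_right _ _).trans h8
    linarith
  · push Not at hcase
    have h1 := small_case hne.card_pos hcase (M := 1) le_rfl
      (y := 1 / (2 * 10 ^ 12) * phi t (Real.log N)) (by
        have h2 : phi t (Real.log N) ≤ √(Real.log N) := phi_le_sqrt hL
        have h3 : 0 ≤ √(Real.log N) := Real.sqrt_nonneg _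
        have h4 : 1 / (2 * 10 ^ 12) * phi t (Real.log N) ≤ 1 / (2 * 10 ^ 12) * √(Real.log N) :=
          mul_le_mul_of_nonneg_left h2 (by norm_num)
        refine h4.trans ?_
        have h5 : 1 / (2 * 10 ^ 12) * √(Real.log N) ≤ 1 * √(Real.log N) :=
          mul_le_mul_of_nonneg_right (by norm_num) h3
        linarith)
    rw [mul_one] at h1
    refine h1.trans (le_of_eq ?_)
    congr 2
    ring

end H24.HS
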