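import Pool.Agent.H24.HS.Bound
import Pool.Agent.H24.Lib.R_seed8.H112R2.FinalGap
set_option autoImplicit false

/-! Collinear points in sets of small doubling. -/

namespace H24.HS

open Finset
open scoped Pointwise

variable {V : Type*} [AddCommGroup V] [Module ℝ V]

/-- every line contains at most `t` elements of `X` -/
def FewCol (t : ℕ) (X : Finset V) : Prop :=
  ∀ S ⊆ X, ∀ a v : V, (∀ y ∈ S, ∃ c : ℝ, y = a + c • v) → S.card ≤ t

theorem FewCol.mono {t : ℕ} {X Y : Finset V} (h : FewCol t X) (hY : Y ⊆ X) : FewCol t Y :=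
  fun S hS a v hv => h S (hS.trans hY) a v hv

theorem doubling_col [DecidableEq V] {K : ℝ} {A : Finset V} (hA : A.Nonempty) {t : ℕ}
    (ht : 1 ≤ t) (hcol : FewCol t A) (hK : ((A + A).card : ℝ) ≤ K * A.card) :
    Real.log A.card ≤ 5200000 * Real.log (2 * K) *
      (Real.log t + Real.log (2 * K) * (1 + Real.log (1 + Real.log (2 * K)))) := by
  classical
  have hK1 := one_le_of_doubling hA hK
  have hApos : (0 : ℝ) < A.card := by exact_mod_cast hA.card_pos
  obtain ⟨k, v, N, T, hk, hN1, hprop, hNA, hT, hcov⟩ := H112.near_pfr_gap' (G := V) tf hA hK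
  obtain ⟨τ, hτ, hle⟩ := H112.cover_pigeonhole hA
    (fun t a => ∃ n : Fin k → ℕ, (∀ i, n i < N i) ∧ a = t + ∑ i, n i • v i) hcov
  set S := A.filter (fun a => ∃ n : Fin k → ℕ, (∀ i, n i < N i) ∧ a = τ + ∑ i, n i • v i)
    with hS
  have hSpos : 0 < S.card := by
    by_contra hcon
    have h0 : S.card = 0 := by omega
    rw [h0, mul_zero] at hle
    exact absurd hle (not_le.2 hA.card_pos)
  have hdig : ∀ a : V, ∃ n : Fin k → ℕ, a ∈ S → (∀ i, n i < N i) ∧ a = τ + ∑ i, n i • v i := by
    intro a
    by_cases ha : a ∈ S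
    · obtain ⟨n, hn⟩ := (Finset.mem_filter.1 ha).2
      exact ⟨n, fun _ => hn⟩
    · exact ⟨0, fun h => absurd h ha⟩
  choose dg hdg using hdig
  have hdginj : Set.InjOn dg S := by
    intro a ha b hb hab
    rw [(hdg a ha).2, (hdg b hb).2, hab]
  -- every side is short
  have hside : ∀ i₀ : Fin k, N i₀ ≤ t * T.card := by
    intro i₀
    set φ : V → (Fin k → ℕ) := fun a => Function.update (dg a) i₀ 0 with hφ
    have hfib : ∀ m ∈ S.image φ, (S.filter fun a => φ a = m).card ≤ t := by
      intro m _
      apply hcol _ ((Finset.filter_subset _ _).trans (Finset.filter_subset _ _))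
        (τ + ∑ i, m i • v i) (v i₀)
      intro y hy
      obtain ⟨hyS, hym⟩ := Finset.mem_filter.1 hy
      refine ⟨(dg y i₀ : ℝ), ?_⟩
      rw [Nat.cast_smul_eq_nsmul]
      nth_rewrite 1 [(hdg y hyS).2]
      rw [add_assoc]
      congr 1
      rw [← hym, ← Finset.add_sum_erase _ _ (Finset.mem_univ i₀),
        ← Finset.add_sum_erase (f := fun i => φ y i • v i) _ (Finset.mem_univ i₀)]
      have e1 : φ y i₀ = 0 := Function.update_self _ _ _
      have e2 : ∑ i ∈ Finset.univ.erase i₀, φ y i • v i =
          ∑ i ∈ Finset.univ.erase i₀, dg y i • v i := by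
        refine Finset.sum_congr rfl fun i hi => ?_
        have : φ y i = dg y i := Function.update_of_ne (Finset.ne_of_mem_erase hi) _ _
        rw [this]
      rw [e1, e2, zero_smul, zero_add, add_comm]
    have h1 := Finset.card_le_mul_card_image S t hfib
    have h2 : (S.image φ).card ≤ ∏ i, (if i = i₀ then 1 else N i) := by
      have h3 : S.image φ ⊆ Fintype.piFinset fun i => Finset.range (if i = i₀ then 1 else N i) := by
        intro m hm
        obtain ⟨a, ha, rfl⟩ := Finset.mem_image.1 hm
        rw [Fintype.mem_piFinset]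
        intro i
        rw [Finset.mem_range]
        by_cases hi : i = i₀
        · subst hi
          rw [if_pos rfl]
          have : φ a i = 0 := Function.update_self _ _ _
          omega
        · rw [if_neg hi]
          have : φ a i = dg a i := Function.update_of_ne hi _ _
          rw [this]
          exact (hdg a ha).1 i
      refine (Finset.card_le_card h3).trans (le_of_eq ?_)
      rw [Fintype.card_piFinset]
      simp only [Finset.card_range]
    have h3 : N i₀ * ∏ i, (if i = i₀ then 1 else N i) = ∏ i, N i := by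
      rw [← Finset.mul_prod_erase Finset.univ N (Finset.mem_univ i₀),
        ← Finset.mul_prod_erase Finset.univ (fun i => if i = i₀ then 1 else N i)
          (Finset.mem_univ i₀)]
      rw [if_pos rfl, one_mul]
      congr 1
      refine Finset.prod_congr rfl fun i hi => ?_
      rw [if_neg (Finset.ne_of_mem_erase hi)]
    have h4 : N i₀ * S.card ≤ t * (T.card * S.card) := by
      calc N i₀ * S.card ≤ N i₀ * (t * ∏ i, (if i = i₀ then 1 else N i)) :=
            Nat.mul_le_mul_left _ (h1.trans (Nat.mul_le_mul_left _ h2))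
        _ = t * (N i₀ * ∏ i, (if i = i₀ then 1 else N i)) := by ring
        _ = t * ∏ i, N i := by rw [h3]
        _ ≤ t * A.card := Nat.mul_le_mul_left _ hNA
        _ ≤ t * (T.card * S.card) := Nat.mul_le_mul_left _ hle
    have h5 : N i₀ * S.card ≤ (t * T.card) * S.card := by
      rw [mul_assoc]; exact h4
    exact Nat.le_of_mul_le_mul_right h5 hSpos
  have hScard : S.card ≤ (t * T.card) ^ k := by
    have h1 : S.card ≤ ∏ i, N i := by
      rw [← Finset.card_image_of_injOn hdginj]
      have h2 : S.image dg ⊆ Fintype.piFinset fun i => Finset.range (N i) := by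
        intro m hm
        obtain ⟨a, ha, rfl⟩ := Finset.mem_image.1 hm
        rw [Fintype.mem_piFinset]
        intro i
        rw [Finset.mem_range]
        exact (hdg a ha).1 i
      refine (Finset.card_le_card h2).trans (le_of_eq ?_)
      rw [Fintype.card_piFinset]
      simp only [Finset.card_range]
    refine h1.trans ?_
    calc ∏ i, N i ≤ ∏ _i : Fin k, (t * T.card) := Finset.prod_le_prod' fun i _ => hside i
      _ = (t * T.card) ^ k := by rw [Finset.prod_const, Finset.card_univ, Fintype.card_fin]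
  have hTpos : (0 : ℝ) < T.card := by exact_mod_cast Finset.card_pos.2 ⟨τ, hτ⟩
  have htpos : (0 : ℝ) < t := by exact_mod_cast ht
  have hT1 : (1 : ℝ) ≤ T.card := by exact_mod_cast Finset.card_pos.2 ⟨τ, hτ⟩
  have ht1 : (1 : ℝ) ≤ t := by exact_mod_cast ht
  have hfin : (A.card : ℝ) ≤ T.card * (t * T.card) ^ k := by
    have : A.card ≤ T.card * (t * T.card) ^ k := hle.trans (Nat.mul_le_mul_left _ hScard)
    exact_mod_cast this
  set κ := Real.log (2 * K) with hκ
  have hκ69 : 0.69 < κ := log_two_le hK1
  have hL0 : 0 ≤ Real.log (1 + κ) := Real.log_nonneg (by linarith)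
  have hlogt : 0 ≤ Real.log t := Real.log_nonneg ht1
  have hlogT0 : 0 ≤ Real.log T.card := Real.log_nonneg hT1
  have hlogT : Real.log T.card ≤ 17000 * κ * (1 + Real.log (1 + κ)) := by
    have h1 := Real.log_le_log hTpos hT
    rw [Real.log_rpow (by linarith), ← hκ] at h1
    linarith
  have h1 : Real.log A.card ≤ Real.log T.card + k * (Real.log t + Real.log T.card) := by
    have h2 := Real.log_le_log hApos hfin
    rw [Real.log_mul hTpos.ne' (by positivity), Real.log_pow, Real.log_mul htpos.ne' hTpos.ne'] at h2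
    exact h2
  have h2 : Real.log A.card ≤ ((k : ℝ) + 1) * (Real.log t + Real.log T.card) := by nlinarith
  have h3 : ((k : ℝ) + 1) * (Real.log t + Real.log T.card) ≤
      (302 * κ) * (Real.log t + 17000 * κ * (1 + Real.log (1 + κ))) := by
    apply mul_le_mul _ (by linarith) (by linarith) (by linarith)
    linarith
  refine h2.trans (h3.trans ?_)
  have h4 : 0 ≤ κ * (κ * (1 + Real.log (1 + κ))) := by positivity
  have h5 : 0 ≤ κ * Real.log t := by positivity
  nlinarith

/-- energy of sets with few collinear points -/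
theorem energy_col [DecidableEq V] {K : ℝ} (hK1 : 1 ≤ K) {A : Finset V} (hA : A.Nonempty)
    {t : ℕ} (ht : 1 ≤ t) (hcol : FewCol t A) (hE : (A.card : ℝ) ^ 3 ≤ K * (A.addEnergy A : ℕ)) :
    Real.log A.card ≤ 10 ^ 12 * Real.log (2 * K) *
      (Real.log t + Real.log (2 * K) * (1 + Real.log (1 + Real.log (2 * K)))) := by
  obtain ⟨B, hBA, hB, hAB, hBB⟩ := bsg' hK1 hA hE
  have hBpos : (0 : ℝ) < B.card := by exact_mod_cast hB.card_pos
  have hApos : (0 : ℝ) < A.card := by exact_mod_cast hA.card_pos
  have hK0 : 0 < K := by linarith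
  have ht1 : (1 : ℝ) ≤ t := by exact_mod_cast ht
  have h1 := doubling_col hB ht (hcol.mono hBA) hBB
  set κ := Real.log (2 * K) with hκ
  have hκ69 : 0.69 < κ := log_two_le hK1
  have hκ' : κ = Real.log 2 + Real.log K := by
    rw [hκ, Real.log_mul (by norm_num) hK0.ne']
  have hlogK : 0 ≤ Real.log K := Real.log_nonneg hK1
  have hlogt : 0 ≤ Real.log t := Real.log_nonneg ht1
  have hl2 := Real.log_two_gt_d9
  set μ := Real.log (2 * (2 ^ 44 * K ^ 20)) with hμ
  have hμle : μ ≤ 65 * κ := by
    rw [hμ, Real.log_mul (by norm_num) (by positivity), Real.log_mul (by norm_num) (by positivity),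
      Real.log_pow, Real.log_pow]
    push_cast
    linarith
  have hμ0 : 0 ≤ μ := by
    apply Real.log_nonneg
    have : (1 : ℝ) ≤ K ^ 20 := one_le_pow₀ hK1
    nlinarith
  have hL0 : 0 ≤ Real.log (1 + κ) := Real.log_nonneg (by linarith)
  have h4 : Real.log (1 + μ) ≤ 5 + Real.log (1 + κ) := by
    have h5 : Real.log (1 + μ) ≤ Real.log (65 * (1 + κ)) :=
      Real.log_le_log (by linarith) (by linarith)
    have h5' : Real.log (65 * (1 + κ)) = Real.log 65 + Real.log (1 + κ) :=
      Real.log_mul (by norm_num) (by positivity)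
    have h6 : Real.log 65 ≤ 5 := by
      rw [Real.log_le_iff_le_exp (by norm_num)]
      have := Real.exp_one_gt_d9
      calc (65 : ℝ) ≤ (2.7 : ℝ) ^ 5 := by norm_num
        _ ≤ Real.exp 1 ^ 5 := by gcongr; linarith
        _ = Real.exp 5 := by rw [← Real.exp_nat_mul]; norm_num
    linarith
  have h4' : 1 + Real.log (1 + μ) ≤ 6 * (1 + Real.log (1 + κ)) := by linarith
  have h40 : 0 ≤ Real.log (1 + μ) := Real.log_nonneg (by linarith)
  have h5 : μ * (1 + Real.log (1 + μ)) ≤ (65 * κ) * (6 * (1 + Real.log (1 + κ))) :=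
    mul_le_mul hμle h4' (by linarith) (by linarith)
  have h6 : 5200000 * μ * (Real.log t + μ * (1 + Real.log (1 + μ))) ≤
      5200000 * (65 * κ) * (Real.log t + (65 * κ) * (6 * (1 + Real.log (1 + κ)))) := by
    apply mul_le_mul _ (by linarith) _ (by linarith)
    · linarith
    · have : 0 ≤ μ * (1 + Real.log (1 + μ)) := mul_nonneg hμ0 (by linarith)
      linarith
  have h3 : Real.log A.card ≤ 3 * κ + Real.log B.card := by
    have h4 := Real.log_le_log hApos hAB
    rw [Real.log_mul (by positivity) hBpos.ne', Real.log_mul (by norm_num) hK0.ne'] at h4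
    have h5 : Real.log 8 = 3 * Real.log 2 := by
      rw [show (8 : ℝ) = 2 ^ 3 by norm_num, Real.log_pow]; norm_num
    linarith
  have h7 : 3 * κ ≤ 5 * (κ * (κ * (1 + Real.log (1 + κ)))) := by
    have h8 : κ ≤ κ * (κ * 1.45) := by nlinarith
    have h9 : κ * (κ * 1.45) ≤ κ * (κ * (1.45 * (1 + Real.log (1 + κ)))) := by
      apply mul_le_mul_of_nonneg_left _ (by linarith)
      apply mul_le_mul_of_nonneg_left _ (by linarith)
      linarith
    nlinarith
  have h8 : 0 ≤ κ * (κ * (1 + Real.log (1 + κ))) := by positivity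
  have h9 : 0 ≤ κ * Real.log t := by positivity
  have h10 : 5200000 * (65 * κ) * (Real.log t + (65 * κ) * (6 * (1 + Real.log (1 + κ)))) =
      338000000 * (κ * Real.log t) + 131820000000 * (κ * (κ * (1 + Real.log (1 + κ)))) := by ring
  rw [h10] at h6
  have h11 : (10 : ℝ) ^ 12 * κ * (Real.log t + κ * (1 + Real.log (1 + κ))) =
      10 ^ 12 * (κ * Real.log t) + 10 ^ 12 * (κ * (κ * (1 + Real.log (1 + κ)))) := by ring
  rw [h11]
  linarith

end H24.HS
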