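import Pool.Agent.H24.HS.Form
import Pool.Agent.H24.HS.Beh
set_option autoImplicit false

/-! Planar sets without three collinear points and with small sumsets. -/

namespace H24.HS

open Finset
open scoped Pointwise

theorem sphere_minor {m : ℕ} {ρ : ℝ} {x y z : Fin m → ℝ} (hx : ∑ i, x i ^ 2 = ρ)
    (hy : ∑ i, y i ^ 2 = ρ) (hz : ∑ i, z i ^ 2 = ρ) (hxy : x ≠ y) (hxz : x ≠ z) (hyz : y ≠ z) :
    ∃ i j, (y - x) i * (z - x) j - (z - x) i * (y - x) j ≠ 0 := by
  by_contra hcon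
  push Not at hcon
  have ha : y - x ≠ 0 := fun h => hxy (sub_eq_zero.1 h).symm
  obtain ⟨i₀, hi₀⟩ := Function.ne_iff.1 ha
  rw [Pi.zero_apply] at hi₀
  obtain ⟨a, hadef⟩ : ∃ a : Fin m → ℝ, a = y - x := ⟨_, rfl⟩
  obtain ⟨b, hbdef⟩ : ∃ b : Fin m → ℝ, b = z - x := ⟨_, rfl⟩
  rw [← hadef] at hi₀ hcon
  rw [← hbdef] at hcon
  obtain ⟨c, hc⟩ : ∃ c : ℝ, c = b i₀ / a i₀ := ⟨_, rfl⟩
  have hb : ∀ j, b j = c * a j := by
    intro j
    have h1 := hcon i₀ j
    rw [hc]
    field_simp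
    linarith
  obtain ⟨S, hS⟩ : ∃ S : ℝ, S = ∑ i, a i ^ 2 := ⟨_, rfl⟩
  obtain ⟨R, hR⟩ : ∃ R : ℝ, R = ∑ i, x i * a i := ⟨_, rfl⟩
  have hSpos : 0 < S := by
    rw [hS]
    apply Finset.sum_pos' (fun i _ => sq_nonneg _)
    exact ⟨i₀, Finset.mem_univ _, by positivity⟩
  have hy' : ∀ i, y i = x i + a i := fun i => by rw [hadef]; simp
  have hz' : ∀ i, z i = x i + c * a i := fun i => by rw [← hb i, hbdef]; simp
  have e1 : 2 * R + S = 0 := by
    have h1 : ∑ i, y i ^ 2 = ∑ i, x i ^ 2 + (2 * R + S) := by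
      rw [hR, hS, Finset.mul_sum, ← Finset.sum_add_distrib, ← Finset.sum_add_distrib]
      exact Finset.sum_congr rfl fun i _ => by rw [hy' i]; ring
    rw [hy, hx] at h1
    linarith
  have e2 : 2 * c * R + c ^ 2 * S = 0 := by
    have h1 : ∑ i, z i ^ 2 = ∑ i, x i ^ 2 + (2 * c * R + c ^ 2 * S) := by
      rw [hR, hS, Finset.mul_sum, Finset.mul_sum, ← Finset.sum_add_distrib,
        ← Finset.sum_add_distrib]
      exact Finset.sum_congr rfl fun i _ => by rw [hz' i]; ring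
    rw [hz, hx] at h1
    linarith
  have e3 : c * (c - 1) * S = 0 := by
    have h1 : 2 * R = -S := by linarith
    have h2 : c * (2 * R) + c ^ 2 * S = 0 := by linarith
    rw [h1] at h2
    linarith
  rcases mul_eq_zero.1 e3 with h1 | h1
  · rcases mul_eq_zero.1 h1 with h2 | h2
    · apply hxz
      funext i
      rw [hz' i, h2]; ring
    · apply hyz
      funext i
      rw [hz' i, hy' i, sub_eq_zero.1 h2]; ring
  · exact hSpos.ne' h1

/-- first coordinate of the projection, as a polynomial in the parameter -/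
noncomputable def Q1 {m : ℕ} (a : Fin m → ℝ) : Polynomial ℝ :=
  ∑ i : Fin m, Polynomial.C (a i) * Polynomial.X ^ (i : ℕ)

/-- the determinant, as a polynomial in the parameter -/
noncomputable def Q2 {m : ℕ} (a b : Fin m → ℝ) : Polynomial ℝ :=
  ∑ i : Fin m, ∑ j : Fin m, Polynomial.C (a i * b j - b i * a j) *
    Polynomial.X ^ ((i : ℕ) + (m + 1) * (j : ℕ))

theorem Q1_ne {m : ℕ} {a : Fin m → ℝ} (ha : a ≠ 0) : Q1 a ≠ 0 := by
  obtain ⟨i₀, hi₀⟩ := Function.ne_iff.1 ha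
  intro h
  have h1 := congrArg (fun p => Polynomial.coeff p (i₀ : ℕ)) h
  simp only [Q1, Polynomial.finsetSum_coeff, Polynomial.coeff_C_mul_X_pow,
    Polynomial.coeff_zero] at h1
  rw [Finset.sum_eq_single i₀] at h1
  · rw [if_pos rfl] at h1
    exact hi₀ h1
  · intro j _ hj
    rw [if_neg]
    intro h2
    exact hj (Fin.ext h2.symm)
  · intro h2; exact absurd (Finset.mem_univ _) h2

theorem Q2_ne {m : ℕ} {a b : Fin m → ℝ} {i₀ j₀ : Fin m}
    (h0 : a i₀ * b j₀ - b i₀ * a j₀ ≠ 0) : Q2 a b ≠ 0 := by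
  intro h
  have h1 := congrArg (fun p => Polynomial.coeff p ((i₀ : ℕ) + (m + 1) * (j₀ : ℕ))) h
  simp only [Q2, Polynomial.finsetSum_coeff, Polynomial.coeff_C_mul_X_pow,
    Polynomial.coeff_zero] at h1
  have huniq : ∀ i j : Fin m, (i₀ : ℕ) + (m + 1) * (j₀ : ℕ) = (i : ℕ) + (m + 1) * (j : ℕ) →
      i = i₀ ∧ j = j₀ := by
    intro i j hij
    have h2 : ((i₀ : ℕ) + (m + 1) * (j₀ : ℕ)) % (m + 1) = ((i : ℕ) + (m + 1) * (j : ℕ)) % (m + 1) :=
      by rw [hij]
    rw [Nat.add_mul_mod_self_left, Nat.add_mul_mod_self_left,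
      Nat.mod_eq_of_lt (i₀.2.trans (Nat.lt_succ_self m)),
      Nat.mod_eq_of_lt (i.2.trans (Nat.lt_succ_self m))] at h2
    have h3 : (m + 1) * (j₀ : ℕ) = (m + 1) * (j : ℕ) := by omega
    have h4 := Nat.eq_of_mul_eq_mul_left (Nat.succ_pos m) h3
    exact ⟨Fin.ext h2.symm, Fin.ext h4.symm⟩
  rw [Finset.sum_eq_single i₀] at h1
  · rw [Finset.sum_eq_single j₀] at h1
    · rw [if_pos rfl] at h1
      exact h0 h1
    · intro j _ hj
      rw [if_neg]
      intro h2
      exact hj (huniq i₀ j h2).2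
    · intro h2; exact absurd (Finset.mem_univ _) h2
  · intro i _ hi
    apply Finset.sum_eq_zero
    intro j _
    rw [if_neg]
    intro h2
    exact hi (huniq i j h2).1
  · intro h2; exact absurd (Finset.mem_univ _) h2

/-- the projection to the plane -/
noncomputable def pr {m : ℕ} (s : ℝ) (x : Fin m → ℝ) : Fin 2 → ℝ :=
  ![∑ i : Fin m, x i * s ^ (i : ℕ), ∑ j : Fin m, x j * s ^ ((m + 1) * (j : ℕ))]

theorem pr_add {m : ℕ} (s : ℝ) (x y : Fin m → ℝ) : pr s (x + y) = pr s x + pr s y := by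
  funext i
  fin_cases i
  · simp only [pr, Pi.add_apply, Fin.zero_eta, Matrix.cons_val_zero]
    rw [← Finset.sum_add_distrib]
    exact Finset.sum_congr rfl fun i _ => by ring
  · simp only [pr, Pi.add_apply, Fin.mk_one, Matrix.cons_val_one, Matrix.cons_val_fin_one]
    rw [← Finset.sum_add_distrib]
    exact Finset.sum_congr rfl fun i _ => by ring

theorem pr_sub {m : ℕ} (s : ℝ) (x y : Fin m → ℝ) : pr s (x - y) = pr s x - pr s y := by
  have h1 := pr_add s (x - y) y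
  rw [sub_add_cancel] at h1
  rw [h1]; abel

theorem eval_Q1 {m : ℕ} (s : ℝ) (a : Fin m → ℝ) : (Q1 a).eval s = pr s a 0 := by
  simp only [Q1, pr, Polynomial.eval_finsetSum, Polynomial.eval_mul, Polynomial.eval_C,
    Polynomial.eval_pow, Polynomial.eval_X, Matrix.cons_val_zero]

theorem eval_Q2 {m : ℕ} (s : ℝ) (a b : Fin m → ℝ) :
    (Q2 a b).eval s = pr s a 0 * pr s b 1 - pr s b 0 * pr s a 1 := by
  simp only [Q2, pr, Polynomial.eval_finsetSum, Polynomial.eval_mul, Polynomial.eval_C,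
    Polynomial.eval_pow, Polynomial.eval_X, Matrix.cons_val_zero, Matrix.cons_val_one,
    Matrix.cons_val_fin_one]
  rw [Finset.sum_mul_sum, Finset.sum_mul_sum, ← Finset.sum_sub_distrib]
  refine Finset.sum_congr rfl fun i _ => ?_
  rw [← Finset.sum_sub_distrib]
  refine Finset.sum_congr rfl fun j _ => ?_
  rw [pow_add]
  ring

/-- a projection to the plane which is injective on `X` and creates no collinear triples -/
theorem exists_pr {m : ℕ} {ρ : ℝ} (X : Finset (Fin m → ℝ)) (hX : ∀ x ∈ X, ∑ i, x i ^ 2 = ρ) :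
    ∃ s : ℝ, Set.InjOn (pr s) (X : Set (Fin m → ℝ)) ∧ FewCol 2 (X.image (pr s)) := by
  classical
  obtain ⟨s, hs⟩ := Infinite.exists_notMem_finset
    (((X ×ˢ X).biUnion fun p => (Q1 (p.1 - p.2)).roots.toFinset) ∪
      ((X ×ˢ X ×ˢ X).biUnion fun p => (Q2 (p.2.1 - p.1) (p.2.2 - p.1)).roots.toFinset))
  rw [Finset.mem_union, not_or] at hs
  have h1 : ∀ x ∈ X, ∀ y ∈ X, x ≠ y → pr s (x - y) 0 ≠ 0 := by
    intro x hx y hy hxy h
    apply hs.1
    rw [Finset.mem_biUnion]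
    refine ⟨(x, y), Finset.mem_product.2 ⟨hx, hy⟩, ?_⟩
    rw [Multiset.mem_toFinset, Polynomial.mem_roots (Q1_ne (sub_ne_zero.2 hxy)),
      Polynomial.IsRoot.def, eval_Q1]
    exact h
  have h2 : ∀ x ∈ X, ∀ y ∈ X, ∀ z ∈ X, x ≠ y → x ≠ z → y ≠ z →
      pr s (y - x) 0 * pr s (z - x) 1 - pr s (z - x) 0 * pr s (y - x) 1 ≠ 0 := by
    intro x hx y hy z hz hxy hxz hyz h
    obtain ⟨i, j, hij⟩ := sphere_minor (hX x hx) (hX y hy) (hX z hz) hxy hxz hyz
    apply hs.2
    rw [Finset.mem_biUnion]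
    refine ⟨(x, y, z), Finset.mem_product.2 ⟨hx, Finset.mem_product.2 ⟨hy, hz⟩⟩, ?_⟩
    rw [Multiset.mem_toFinset, Polynomial.mem_roots (Q2_ne hij),
      Polynomial.IsRoot.def, eval_Q2]
    exact h
  refine ⟨s, ?_, ?_⟩
  · intro x hx y hy hxy
    by_contra hne
    apply h1 x hx y hy hne
    rw [pr_sub, hxy, sub_self]
    rfl
  · intro S hS a v hv
    by_contra hcon
    push Not at hcon
    obtain ⟨p, q, r, hp, hq, hr, hpq, hpr, hqr⟩ := Finset.two_lt_card_iff.1 hcon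
    obtain ⟨x, hx, rfl⟩ := Finset.mem_image.1 (hS hp)
    obtain ⟨y, hy, rfl⟩ := Finset.mem_image.1 (hS hq)
    obtain ⟨z, hz, rfl⟩ := Finset.mem_image.1 (hS hr)
    apply h2 x hx y hy z hz (fun h => hpq (by rw [h])) (fun h => hpr (by rw [h]))
      (fun h => hqr (by rw [h]))
    obtain ⟨c1, e1⟩ := hv _ hp
    obtain ⟨c2, e2⟩ := hv _ hq
    obtain ⟨c3, e3⟩ := hv _ hr
    rw [pr_sub, pr_sub, e1, e2, e3]
    simp only [Pi.sub_apply, Pi.add_apply, Pi.smul_apply, smul_eq_mul]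
    ring

/-- sumsets of Freiman isomorphic sets -/
theorem card_add_le {G V : Type*} [AddCommGroup G] [AddCommGroup V] [DecidableEq G]
    [DecidableEq V] {A : Finset G} {X : Finset V} {ψ : G → V}
    (hψ : IsAddFreimanIso 2 (A : Set G) (X : Set V) ψ) : (X + X).card ≤ (A + A).card := by
  classical
  have h1 : ∀ s : G, ∃ v : V, ∀ a ∈ A, ∀ b ∈ A, a + b = s → v = ψ a + ψ b := by
    intro s
    by_cases h : ∃ a ∈ A, ∃ b ∈ A, a + b = s
    · obtain ⟨a, ha, b, hb, hab⟩ := h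
      refine ⟨ψ a + ψ b, fun c hc d hd hcd => ?_⟩
      exact (hψ.add_eq_add (Finset.mem_coe.2 ha) (Finset.mem_coe.2 hb) (Finset.mem_coe.2 hc)
        (Finset.mem_coe.2 hd)).2 (hab.trans hcd.symm)
    · exact ⟨0, fun a ha b hb hab => absurd ⟨a, ha, b, hb, hab⟩ h⟩
  choose θ hθ using h1
  have h2 : X + X ⊆ (A + A).image θ := by
    intro v hv
    obtain ⟨x, hx, y, hy, rfl⟩ := Finset.mem_add.1 hv
    obtain ⟨a, ha, rfl⟩ := hψ.bijOn.surjOn (Finset.mem_coe.2 hx)
    obtain ⟨b, hb, rfl⟩ := hψ.bijOn.surjOn (Finset.mem_coe.2 hy)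
    exact Finset.mem_image.2 ⟨a + b, Finset.add_mem_add (Finset.mem_coe.1 ha)
      (Finset.mem_coe.1 hb), hθ _ a (Finset.mem_coe.1 ha) b (Finset.mem_coe.1 hb) rfl⟩
  exact (Finset.card_le_card h2).trans Finset.card_image_le

theorem exists_N {n : ℕ} (hn : 1 ≤ n) : ∃ N : ℕ, 1 ≤ N ∧
    (n : ℝ) ≤ N * Real.exp (-4 * √(Real.log N)) ∧
    (N : ℝ) ≤ 4 * n * Real.exp (40 * √(Real.log n)) := by
  rcases Nat.lt_or_ge n 2 with h | h
  · obtain rfl : n = 1 := by omega
    refine ⟨1, le_rfl, ?_, ?_⟩ <;> norm_num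
  have hn2 : (2 : ℝ) ≤ n := by exact_mod_cast h
  have hn0 : (0 : ℝ) < n := by linarith
  obtain ⟨x, hx⟩ : ∃ x : ℝ, x = Real.log n := ⟨_, rfl⟩
  have hx69 : 0.69 < x := by
    have h1 := Real.log_two_gt_d9
    have h2 : Real.log 2 ≤ Real.log n := Real.log_le_log (by norm_num) hn2
    rw [hx]; linarith
  have hnx : (n : ℝ) = Real.exp x := by rw [hx, Real.exp_log hn0]
  rw [← hx]
  obtain ⟨s, hs⟩ : ∃ s : ℝ, s = √x := ⟨_, rfl⟩
  have hs2 : s ^ 2 = x := by rw [hs, Real.sq_sqrt (by linarith)]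
  have hs0 : 0 < s := by rw [hs]; exact Real.sqrt_pos.2 (by linarith)
  have hs83 : 0.83 < s := by
    by_contra hcon
    push Not at hcon
    nlinarith
  rw [← hs]
  have hy1 : (1 : ℝ) ≤ n * Real.exp (40 * s) := by
    have : (1 : ℝ) ≤ Real.exp (40 * s) := Real.one_le_exp (by positivity)
    nlinarith
  refine ⟨⌈(n : ℝ) * Real.exp (40 * s)⌉₊, ?_, ?_, ?_⟩
  · exact Nat.one_le_iff_ne_zero.2 (Nat.ceil_pos.2 (by linarith)).ne'
  · obtain ⟨N, hN⟩ : ∃ N : ℕ, N = ⌈(n : ℝ) * Real.exp (40 * s)⌉₊ := ⟨_, rfl⟩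
    rw [← hN]
    have h1 : (n : ℝ) * Real.exp (40 * s) ≤ N := by rw [hN]; exact Nat.le_ceil _
    have h2 : (N : ℝ) ≤ 2 * (n * Real.exp (40 * s)) := by
      rw [hN]
      have := (Nat.ceil_lt_add_one (show 0 ≤ (n : ℝ) * Real.exp (40 * s) by positivity)).le
      linarith
    have hNpos : (0 : ℝ) < N := lt_of_lt_of_le (by positivity) h1
    have h3 : Real.log N ≤ 1 + x + 40 * s := by
      have h4 := Real.log_le_log hNpos h2
      rw [Real.log_mul (by norm_num) (by positivity), Real.log_mul hn0.ne' (Real.exp_pos _).ne',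
        Real.log_exp, ← hx] at h4
      have := Real.log_two_lt_d9
      linarith
    have h4 : √(Real.log N) ≤ 10 * s := by
      rw [Real.sqrt_le_left (by positivity)]
      nlinarith
    calc (n : ℝ) = n * Real.exp (40 * s) * Real.exp (-(40 * s)) := by
          rw [mul_assoc, ← Real.exp_add, add_neg_cancel, Real.exp_zero, mul_one]
      _ ≤ N * Real.exp (-(40 * s)) := mul_le_mul_of_nonneg_right h1 (Real.exp_pos _).le
      _ ≤ N * Real.exp (-4 * √(Real.log N)) := by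
          apply mul_le_mul_of_nonneg_left _ hNpos.le
          apply Real.exp_le_exp.2
          linarith
  · have := (Nat.ceil_lt_add_one (show 0 ≤ (n : ℝ) * Real.exp (40 * s) by positivity)).le
    linarith

/-- **Planar sets without three collinear points and with small sumsets.** -/
theorem plane_sets {n : ℕ} (hn : 1 ≤ n) : ∃ Y : Finset (Fin 2 → ℝ), Y.card = n ∧ FewCol 2 Y ∧
    ((Y + Y).card : ℝ) ≤ 8 * n * Real.exp (40 * √(Real.log n)) := by
  classical
  obtain ⟨N, hN1, hN2, hN3⟩ := exists_N hn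
  obtain ⟨m, ρ, A, X, ψ, hA, hX, hψ, hAc⟩ := behrend_sets hN1
  have hXA : X.card = A.card := by
    have h1 := hψ.bijOn.image_eq
    have h2 : A.image ψ = X := by
      apply Finset.coe_injective
      rw [Finset.coe_image]
      exact h1
    rw [← h2]
    exact Finset.card_image_of_injOn hψ.bijOn.injOn
  have hnX : n ≤ X.card := by
    have h1 : (n : ℝ) ≤ A.card := hN2.trans hAc
    rw [hXA]
    exact_mod_cast h1
  obtain ⟨X', hX'X, hX'n⟩ := Finset.exists_subset_card_eq hnX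
  obtain ⟨s, hs1, hs2⟩ := exists_pr X' (fun x hx => hX x (hX'X hx))
  refine ⟨X'.image (pr s), ?_, hs2, ?_⟩
  · rw [Finset.card_image_of_injOn hs1, hX'n]
  · have h1 : X'.image (pr s) + X'.image (pr s) ⊆ (X + X).image (pr s) := by
      intro v hv
      obtain ⟨p, hp, q, hq, rfl⟩ := Finset.mem_add.1 hv
      obtain ⟨x, hx, rfl⟩ := Finset.mem_image.1 hp
      obtain ⟨y, hy, rfl⟩ := Finset.mem_image.1 hq
      exact Finset.mem_image.2 ⟨x + y, Finset.add_mem_add (hX'X hx) (hX'X hy), pr_add s x y⟩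
    have h2 : (X'.image (pr s) + X'.image (pr s)).card ≤ (A + A).card :=
      ((Finset.card_le_card h1).trans Finset.card_image_le).trans (card_add_le hψ)
    have h3 : (A + A).card ≤ 2 * N := by
      have h3 : A + A ⊆ Finset.Icc 1 (2 * N : ℤ) := by
        intro x hx
        obtain ⟨a, ha, b, hb, rfl⟩ := Finset.mem_add.1 hx
        have h4 := Finset.mem_Icc.1 (hA ha)
        have h5 := Finset.mem_Icc.1 (hA hb)
        exact Finset.mem_Icc.2 ⟨by omega, by omega⟩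
      refine (Finset.card_le_card h3).trans (le_of_eq ?_)
      rw [Int.card_Icc]
      omega
    have h4 : ((X'.image (pr s) + X'.image (pr s)).card : ℝ) ≤ 2 * N := by
      exact_mod_cast h2.trans h3
    refine h4.trans ?_
    linarith

end H24.HS
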