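import Pool.Agent.H24.HS.Deg
set_option autoImplicit false

/-! Sections of sets of small doubling on hypersurfaces by subspaces. -/

namespace H24.HS

open Finset
open scoped Pointwise

variable {V : Type*} [AddCommGroup V] [Module ℝ V]

/-- one subspace: a large section of a set of small doubling on a hypersurface has a large section by
a smaller subspace. -/
theorem step [DecidableEq V] {b D : ℝ} (hD : 1 ≤ D) (hb : 0 ≤ b) {H : Submodule ℝ V} {z : V}
    {Y : Finset V} (hYH : ∀ y ∈ Y, y - z ∈ H) (hYD : ((Y - Y).card : ℝ) ≤ D * Y.card)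
    (hsec : ∀ R : Submodule ℝ V, R < H → ∀ w : V, ∀ S ⊆ Y, (∀ y ∈ S, y - w ∈ R) →
      (S.card : ℝ) ≤ b) :
    ∀ (k : ℕ) (g : V → ℝ) (Y' : Finset V) (M : ℝ), 1 ≤ M → Pol k g → Y' ⊆ Y → Y'.Nonempty →
      (∀ y ∈ Y', g y = 0) → (∃ h ∈ H, g (z + h) ≠ 0) → (Y.card : ℝ) ≤ M * Y'.card →
      (Y.card : ℝ) ≤ 2 * b * (2 * D) ^ (2 ^ k - 1) * M ^ (2 ^ k) := by
  intro k
  induction k with
  | zero =>
    intro g Y' M _ hg _ hne hzero hnz _
    obtain ⟨y, hy⟩ := hne
    obtain ⟨h, _, hh⟩ := hnz
    exact absurd (by rw [hg.deg (z + h) y]; exact hzero y hy) hh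
  | succ k ih =>
    intro g Y' M hM hg hY' hne hzero hnz hcard
    obtain ⟨R, hR⟩ := exists_per hg H z
    have hRH : R < H := by
      refine lt_of_le_of_ne (fun u hu => ((hR u).1 hu).1) ?_
      intro hEq
      obtain ⟨y, hy⟩ := hne
      obtain ⟨h, hh, hhne⟩ := hnz
      have h1 : ∀ h ∈ H, g (z + h) = g z := by
        intro h hh
        have h2 := ((hR h).1 (hEq ▸ hh)).2 0 H.zero_mem
        rwa [add_zero] at h2
      have h2 : y = z + (y - z) := by abel
      have h3 := h1 (y - z) (hYH y (hY' hy))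
      rw [← h2, hzero y hy] at h3
      rw [h1 h hh, ← h3] at hhne
      exact hhne rfl
    have hY'pos : (0 : ℝ) < Y'.card := by exact_mod_cast hne.card_pos
    have h2D : (1 : ℝ) ≤ 2 * D := by linarith
    by_cases hcase : (Y'.card : ℝ) ≤ 2 * b
    · calc (Y.card : ℝ) ≤ M * Y'.card := hcard
        _ ≤ M * (2 * b) := mul_le_mul_of_nonneg_left hcase (by linarith)
        _ = 2 * b * 1 * M ^ 1 := by ring
        _ ≤ 2 * b * (2 * D) ^ (2 ^ (k + 1) - 1) * M ^ (2 ^ (k + 1)) := by
          gcongr
          · exact one_le_pow₀ h2D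
          · exact Nat.one_le_two_pow
    · push Not at hcase
      classical
      set P : Finset (V × V) := (Y' ×ˢ Y').filter fun p => ¬ (p.1 - p.2 ∈ R) with hP
      set Pc : Finset (V × V) := (Y' ×ˢ Y').filter fun p => p.1 - p.2 ∈ R with hPc
      have hsplit : Pc.card + P.card = Y'.card * Y'.card := by
        rw [hP, hPc, Finset.card_filter_add_card_filter_not, Finset.card_product]
      have hPcb : (Pc.card : ℝ) ≤ Y'.card * b := by
        have h1 : Pc.card = ∑ y ∈ Y', (Pc.filter fun p => p.2 = y).card := by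
          apply Finset.card_eq_sum_card_fiberwise
          intro p hp
          exact (Finset.mem_product.1 (Finset.mem_filter.1 hp).1).2
        rw [h1]
        push_cast
        rw [← nsmul_eq_mul, ← Finset.sum_const]
        refine Finset.sum_le_sum fun y hy => ?_
        have h2 : ((Pc.filter fun p => p.2 = y).image Prod.fst).card =
            (Pc.filter fun p => p.2 = y).card := by
          apply Finset.card_image_of_injOn
          intro p hp q hq hpq
          have e1 := (Finset.mem_filter.1 hp).2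
          have e2 := (Finset.mem_filter.1 hq).2
          exact Prod.ext hpq (e1.trans e2.symm)
        rw [← h2]
        apply hsec R hRH y
        · intro x hx
          obtain ⟨p, hp, rfl⟩ := Finset.mem_image.1 hx
          exact hY' (Finset.mem_product.1
            (Finset.mem_filter.1 (Finset.mem_filter.1 hp).1).1).1
        · intro x hx
          obtain ⟨p, hp, rfl⟩ := Finset.mem_image.1 hx
          have e1 := (Finset.mem_filter.1 hp).2
          have e2 := (Finset.mem_filter.1 (Finset.mem_filter.1 hp).1).2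
          rw [e1] at e2
          exact e2
      have hPlow : (Y'.card : ℝ) * Y'.card / 2 ≤ P.card := by
        have h1 : (Pc.card : ℝ) + P.card = Y'.card * Y'.card := by exact_mod_cast hsplit
        have h2 : (Y'.card : ℝ) * b ≤ Y'.card * (Y'.card / 2) :=
          mul_le_mul_of_nonneg_left (by linarith) hY'pos.le
        linarith
      have hPpos : (0 : ℝ) < P.card := lt_of_lt_of_le (by positivity) hPlow
      -- popular difference
      have hmaps : ∀ p ∈ P, p.1 - p.2 ∈ Y - Y := fun p hp => by
        have := Finset.mem_product.1 (Finset.mem_filter.1 hp).1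
        exact Finset.sub_mem_sub (hY' this.1) (hY' this.2)
      have hYYne : (Y - Y).Nonempty := by
        obtain ⟨p, hp⟩ := Finset.card_pos.1 (by exact_mod_cast hPpos : 0 < P.card)
        exact ⟨_, hmaps p hp⟩
      obtain ⟨u, hu, hufib⟩ : ∃ u ∈ Y - Y, (P.card : ℝ) ≤ (Y - Y).card *
          ((P.filter fun p => p.1 - p.2 = u).card : ℝ) := by
        by_contra hcon
        push Not at hcon
        have h1 : (P.card : ℝ) = ∑ u ∈ Y - Y, ((P.filter fun p => p.1 - p.2 = u).card : ℝ) := by
          exact_mod_cast Finset.card_eq_sum_card_fiberwise hmaps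
        have h2 : ∑ u ∈ Y - Y, ((Y - Y).card : ℝ) * ((P.filter fun p => p.1 - p.2 = u).card : ℝ) <
            ∑ _u ∈ Y - Y, (P.card : ℝ) := Finset.sum_lt_sum_of_nonempty hYYne hcon
        rw [← Finset.mul_sum, ← h1, Finset.sum_const, nsmul_eq_mul] at h2
        exact lt_irrefl _ h2
      set Fb : Finset (V × V) := P.filter fun p => p.1 - p.2 = u with hFb
      have hYYpos : (0 : ℝ) < (Y - Y).card := by exact_mod_cast hYYne.card_pos
      have hFbpos : (0 : ℝ) < Fb.card := by
        by_contra hcon
        push Not at hcon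
        have : (Fb.card : ℝ) = 0 := le_antisymm hcon (Nat.cast_nonneg _)
        rw [this, mul_zero] at hufib
        linarith
      set Y'' : Finset V := Fb.image Prod.fst with hY''
      have hY''card : Y''.card = Fb.card := by
        apply Finset.card_image_of_injOn
        intro p hp q hq hpq
        have e1 := (Finset.mem_filter.1 hp).2
        have e2 := (Finset.mem_filter.1 hq).2
        refine Prod.ext hpq ?_
        have e3 : p.1 - (p.1 - p.2) = q.1 - (q.1 - q.2) := by rw [e1, e2, hpq]
        simpa using e3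
      have hYcard0 : (0 : ℝ) < Y.card := lt_of_lt_of_le hY'pos (by
        exact_mod_cast Finset.card_le_card hY')
      -- membership
      have hmem : ∀ y ∈ Y'', y ∈ Y' ∧ y - u ∈ Y' ∧ u ∉ R := by
        intro y hy
        obtain ⟨p, hp, rfl⟩ := Finset.mem_image.1 hy
        obtain ⟨hpP, hpu⟩ := Finset.mem_filter.1 hp
        obtain ⟨hpp, hpR⟩ := Finset.mem_filter.1 hpP
        obtain ⟨h1, h2⟩ := Finset.mem_product.1 hpp
        refine ⟨h1, ?_, ?_⟩
        · rw [← hpu, sub_sub_cancel]; exact h2
        · rw [← hpu]; exact hpR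
      have hY''ne : Y''.Nonempty := by
        rw [← Finset.card_pos, hY''card]
        exact_mod_cast hFbpos
      obtain ⟨y₀, hy₀⟩ := hY''ne
      have huR : u ∉ R := (hmem y₀ hy₀).2.2
      have huH : u ∈ H := by
        have h1 := hYH _ (hY' (hmem y₀ hy₀).1)
        have h2 := hYH _ (hY' (hmem y₀ hy₀).2.1)
        have h3 := H.sub_mem h1 h2
        have h4 : y₀ - z - (y₀ - u - z) = u := by abel
        rwa [h4] at h3
      have hnuR : -u ∉ R := fun h => huR (by simpa using R.neg_mem h)
      have hg' : Pol k (fun x => g (x + -u) - g x) := hg.diff (-u)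
      have hzero' : ∀ y ∈ Y'', (fun x => g (x + -u) - g x) y = 0 := by
        intro y hy
        show g (y + -u) - g y = 0
        rw [← sub_eq_add_neg, hzero _ (hmem y hy).2.1, hzero _ (hmem y hy).1, sub_zero]
      have hnz' : ∃ h ∈ H, (fun x => g (x + -u) - g x) (z + h) ≠ 0 := by
        by_contra hcon
        push Not at hcon
        apply hnuR
        rw [hR]
        refine ⟨H.neg_mem huH, fun h hh => ?_⟩
        have := hcon h hh
        exact sub_eq_zero.1 this
      have hM' : 1 ≤ 2 * D * M ^ 2 := by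
        have : 1 ≤ M ^ 2 := one_le_pow₀ hM
        nlinarith
      have hcard' : (Y.card : ℝ) ≤ 2 * D * M ^ 2 * Y''.card := by
        rw [hY''card]
        have h1 : (Y'.card : ℝ) * Y'.card / 2 ≤ (D * Y.card) * Fb.card :=
          (hPlow.trans hufib).trans (mul_le_mul_of_nonneg_right hYD (Nat.cast_nonneg _))
        have h2 : (D * Y.card) * Fb.card ≤ (D * (M * Y'.card)) * Fb.card := by
          gcongr
        have h3 : (Y'.card : ℝ) * Y'.card / 2 ≤ (D * (M * Fb.card)) * Y'.card := by
          calc (Y'.card : ℝ) * Y'.card / 2 ≤ (D * (M * Y'.card)) * Fb.card := h1.trans h2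
            _ = _ := by ring
        have h4 : (Y'.card : ℝ) ≤ 2 * (D * (M * Fb.card)) := by
          by_contra hcon
          push Not at hcon
          have := mul_lt_mul_of_pos_right hcon hY'pos
          linarith
        calc (Y.card : ℝ) ≤ M * Y'.card := hcard
          _ ≤ M * (2 * (D * (M * Fb.card))) := mul_le_mul_of_nonneg_left h4 (by linarith)
          _ = _ := by ring
      have hfin := ih (fun x => g (x + -u) - g x) Y'' (2 * D * M ^ 2) hM' hg'
        (fun y hy => hY' (hmem y hy).1) ⟨y₀, hy₀⟩ hzero' hnz' hcard'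
      refine hfin.trans (le_of_eq ?_)
      have e1 : (2 * D * M ^ 2) ^ 2 ^ k = (2 * D) ^ 2 ^ k * M ^ 2 ^ (k + 1) := by
        rw [mul_pow (2 * D) (M ^ 2), ← pow_mul]
        congr 2
        rw [pow_succ]; ring
      rw [e1]
      have e2 : (2 * D) ^ (2 ^ (k + 1) - 1) = (2 * D) ^ (2 ^ k - 1) * (2 * D) ^ 2 ^ k := by
        rw [← pow_add]
        congr 1
        have : 1 ≤ 2 ^ k := Nat.one_le_two_pow
        have h3 : 2 ^ (k + 1) = 2 ^ k + 2 ^ k := by ring
        omega
      rw [e2]
      ring

/-- the largest section of a set of small doubling by translates of a subspace has small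
difference set -/
theorem diff_of_max [DecidableEq V] {K : ℝ} (hK1 : 1 ≤ K) {X : Finset V}
    (hK : ((X + X).card : ℝ) ≤ K * X.card) (hX : X.Nonempty) (H : Submodule ℝ V) {z : V}
    {Y : Finset V} (hY : ∀ y, y ∈ Y ↔ y ∈ X ∧ y - z ∈ H) (hYne : Y.Nonempty)
    (hmax : ∀ w ∈ X, ∀ S ⊆ X, (∀ y ∈ S, y - w ∈ H) → S.card ≤ Y.card) :
    ((Y - Y).card : ℝ) ≤ K ^ 2 * Y.card := by
  classical
  set q : V → V ⧸ H := fun x => Submodule.Quotient.mk x with hq
  have hqeq : ∀ x y : V, q x = q y ↔ x - y ∈ H := fun x y => Submodule.Quotient.eq H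
  set sec : V ⧸ H → Finset V := fun w => X.filter fun x => q x = w with hsec
  have hYsub : Y ⊆ X := fun y hy => ((hY y).1 hy).1
  have hXsum : (X.card : ℝ) = ∑ w ∈ X.image q, ((sec w).card : ℝ) := by
    exact_mod_cast Finset.card_eq_sum_card_fiberwise
      (fun x hx => Finset.mem_image_of_mem q hx)
  have hsum : ∑ w ∈ X.image q, ((Y + sec w).card : ℝ) ≤ (X + X).card := by
    have h1 : ∀ w ∈ X.image q, Y + sec w ⊆ (X + X).filter fun x => q x = q z + w := by
      intro w _ x hx
      obtain ⟨y, hy, s, hs, rfl⟩ := Finset.mem_add.1 hx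
      obtain ⟨hsX, hsw⟩ := Finset.mem_filter.1 hs
      refine Finset.mem_filter.2 ⟨Finset.add_mem_add (hYsub hy) hsX, ?_⟩
      have h2 : q y = q z := (hqeq y z).2 ((hY y).1 hy).2
      rw [← hsw, ← h2]
      rfl
    have h3 : ∑ w ∈ X.image q, (Y + sec w).card ≤
        ∑ w ∈ X.image q, ((X + X).filter fun x => q x = q z + w).card :=
      Finset.sum_le_sum fun w hw => Finset.card_le_card (h1 w hw)
    have h4 : ∑ w ∈ X.image q, ((X + X).filter fun x => q x = q z + w).card ≤ (X + X).card := by
      rw [← Finset.card_biUnion]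
      · exact Finset.card_le_card (Finset.biUnion_subset.2 fun w _ => Finset.filter_subset _ _)
      · intro w _ w' _ hww'
        rw [Function.onFun, Finset.disjoint_left]
        intro x hx hx'
        have e1 := (Finset.mem_filter.1 hx).2
        have e2 := (Finset.mem_filter.1 hx').2
        exact hww' (add_left_cancel (e1.symm.trans e2))
    exact_mod_cast h3.trans h4
  obtain ⟨w, hw, hle⟩ : ∃ w ∈ X.image q, ((Y + sec w).card : ℝ) ≤ K * (sec w).card := by
    apply Finset.exists_le_of_sum_le (hX.image q)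
    rw [← Finset.mul_sum, ← hXsum]
    exact hsum.trans hK
  obtain ⟨x, hx, hxw⟩ := Finset.mem_image.1 hw
  have hsecne : (sec w).Nonempty := ⟨x, Finset.mem_filter.2 ⟨hx, hxw⟩⟩
  have hsecpos : (0 : ℝ) < (sec w).card := by exact_mod_cast hsecne.card_pos
  have hsecY : ((sec w).card : ℝ) ≤ Y.card := by
    have : (sec w).card ≤ Y.card := by
      apply hmax x hx (sec w) (Finset.filter_subset _ _)
      intro y hy
      rw [← hqeq]
      exact (Finset.mem_filter.1 hy).2.trans hxw.symm
    exact_mod_cast this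
  have hr := Finset.ruzsa_triangle_inequality_sub_add_add Y (sec w) Y
  have hr' : ((Y - Y).card : ℝ) * (sec w).card ≤ (Y + sec w).card * (Y + sec w).card := by
    exact_mod_cast hr
  have h5 : ((Y + sec w).card : ℝ) * (Y + sec w).card ≤ (K * (sec w).card) * (K * (sec w).card) :=
    mul_le_mul hle hle (Nat.cast_nonneg _) (by positivity)
  have h6 : ((Y - Y).card : ℝ) ≤ K ^ 2 * (sec w).card := by
    by_contra hcon
    push Not at hcon
    have := mul_lt_mul_of_pos_right hcon hsecpos
    nlinarith
  refine h6.trans ?_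
  gcongr

/-- **Sections.** A set of doubling `K` on a hypersurface of degree `k` without lines has at most
`B ^ j` points in each flat of dimension `j`. -/
theorem sections [DecidableEq V] {K : ℝ} (hK1 : 1 ≤ K) {X : Finset V} {k : ℕ} {f : V → ℝ}
    (hf : Pol k f) (hfX : ∀ x ∈ X, f x = 0) (hline : ∀ x u : V, u ≠ 0 → ∃ t : ℝ, f (x + t • u) ≠ 0)
    (hK : ((X + X).card : ℝ) ≤ K * X.card) :
    ∀ (j : ℕ) (H : Submodule ℝ V), Module.Finite ℝ H → Module.finrank ℝ H = j →
      ∀ (z : V) (S : Finset V), S ⊆ X → (∀ y ∈ S, y - z ∈ H) →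
        (S.card : ℝ) ≤ (2 * (2 * K ^ 2) ^ (2 ^ k)) ^ j := by
  classical
  have hB1 : (1 : ℝ) ≤ 2 * (2 * K ^ 2) ^ (2 ^ k) := by
    have h1 : (1 : ℝ) ≤ (2 * K ^ 2) ^ (2 ^ k) := by
      apply one_le_pow₀
      nlinarith
    linarith
  set B : ℝ := 2 * (2 * K ^ 2) ^ (2 ^ k) with hB
  intro j
  induction j using Nat.strong_induction_on with
  | _ j ih =>
  intro H hHfin hHj z S hS hSz
  rcases S.eq_empty_or_nonempty with rfl | hSne
  · simp only [Finset.card_empty, Nat.cast_zero]
    positivity
  obtain ⟨s₀, hs₀⟩ := hSne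
  rcases Nat.eq_zero_or_pos j with rfl | hjpos
  · -- trivial subspace
    have hbot : H = ⊥ := by
      exact Submodule.finrank_eq_zero.1 hHj
    have : S.card ≤ 1 := by
      rw [Finset.card_le_one]
      intro a ha b hb
      have h1 := hSz a ha
      have h2 := hSz b hb
      rw [hbot, Submodule.mem_bot] at h1 h2
      rw [sub_eq_zero] at h1 h2
      rw [h1, h2]
    rw [pow_zero]
    exact_mod_cast this
  · -- choose the largest section
    have hXne : X.Nonempty := ⟨s₀, hS hs₀⟩
    obtain ⟨z₀, hz₀, hz₀max⟩ := Finset.exists_max_image X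
      (fun w => (X.filter fun y => y - w ∈ H).card) hXne
    set Y := X.filter fun y => y - z₀ ∈ H with hYdef
    have hmaxx : ∀ w ∈ X, ∀ S ⊆ X, (∀ y ∈ S, y - w ∈ H) → S.card ≤ Y.card := by
      intro w hw T hT hTw
      refine le_trans (Finset.card_le_card ?_) (hz₀max w hw)
      intro y hy
      exact Finset.mem_filter.2 ⟨hT hy, hTw y hy⟩
    have hYne : Y.Nonempty := ⟨z₀, Finset.mem_filter.2 ⟨hz₀, by rw [sub_self]; exact H.zero_mem⟩⟩
    have hSY : S.card ≤ Y.card := by
      apply hmaxx s₀ (hS hs₀) S hS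
      intro y hy
      have := H.sub_mem (hSz y hy) (hSz s₀ hs₀)
      rwa [sub_sub_sub_cancel_right] at this
    have hYD := diff_of_max hK1 hK hXne H (z := z₀) (Y := Y)
      (fun y => by rw [hYdef, Finset.mem_filter]) hYne hmaxx
    -- a nonzero vector of `H`
    have hHne : H ≠ ⊥ := by
      intro h
      rw [h, finrank_bot] at hHj
      omega
    obtain ⟨u, huH, hu0⟩ := Submodule.exists_mem_ne_zero_of_ne_bot hHne
    obtain ⟨t, ht⟩ := hline z₀ u hu0
    have hnz : ∃ h ∈ H, f (z₀ + h) ≠ 0 := ⟨t • u, H.smul_mem t huH, ht⟩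
    have hsec : ∀ R : Submodule ℝ V, R < H → ∀ w : V, ∀ S ⊆ Y, (∀ y ∈ S, y - w ∈ R) →
        (S.card : ℝ) ≤ B ^ (j - 1) := by
      intro R hR w T hT hTw
      have hRfin : Module.Finite ℝ R := Submodule.finiteDimensional_of_le hR.le
      have hlt : Module.finrank ℝ R < Module.finrank ℝ H := Submodule.finrank_lt_finrank_of_lt hR
      have h1 := ih (Module.finrank ℝ R) (by omega) R hRfin rfl w T
        (hT.trans (Finset.filter_subset _ _)) hTw
      refine h1.trans ?_
      exact pow_le_pow_right₀ hB1 (by omega)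
    have hstep := step (D := K ^ 2) (b := B ^ (j - 1)) (one_le_pow₀ hK1) (by positivity)
      (H := H) (z := z₀) (Y := Y) (fun y hy => (Finset.mem_filter.1 hy).2) hYD hsec k f Y 1 le_rfl
      hf (Finset.Subset.refl _) hYne (fun y hy => hfX y (Finset.mem_filter.1 hy).1) hnz
      (by rw [one_mul])
    rw [one_pow, mul_one] at hstep
    have h2 : (2 * K ^ 2) ^ (2 ^ k - 1) ≤ (2 * K ^ 2) ^ (2 ^ k) := by
      apply pow_le_pow_right₀
      · nlinarith
      · exact Nat.sub_le _ _
    calc (S.card : ℝ) ≤ Y.card := by exact_mod_cast hSY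
      _ ≤ 2 * B ^ (j - 1) * (2 * K ^ 2) ^ (2 ^ k - 1) := hstep
      _ ≤ 2 * B ^ (j - 1) * (2 * K ^ 2) ^ (2 ^ k) := by
          apply mul_le_mul_of_nonneg_left h2
          positivity
      _ = B ^ (j - 1) * B := by rw [hB]; ring
      _ = B ^ j := by
          rw [← pow_succ]
          congr 1
          omega

end H24.HS
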